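import Mathlib
import Pool.Agent.Lib.MP_44a246_ntS.SF3c
import Pool.Agent.Lib.MP_44a246_ntS.SB2c
import Pool.Agent.Lib.MP_44a246_ntS.SJ3b

/-!
Functionals supported on a plane curve.
-/

namespace Pool.Agent.Lib.MP_44a246_ntZ

open Pool.Agent.Lib.MP_44a246_nt
open Pool.Agent.Lib.MP_44a246_ntL
open Pool.Agent.Lib.MP_44a246_ntS
open Pool.Agent.Lib.MP_e52354_nt
open WithZero Module MvPolynomial

section

variable {L : Type*} [Field L]

/-- a form outside of a space of forms is detected by a functional -/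
theorem exists_pr_ne {s : ℕ} {W : Submodule L (MvPolynomial (Fin 3) L)}
    (hW : ∀ P ∈ W, P.IsHomogeneous s) {f : MvPolynomial (Fin 3) L} (hf : f.IsHomogeneous s)
    (hfW : f ∉ W) : ∃ u : M3 s → L, (∀ g ∈ W, pr g u = 0) ∧ pr f u ≠ 0 := by
  -- the coefficients give an isomorphism between the forms of degree `s` and `M3 s → L`; a linear
  -- functional `φ` on `M3 s → L` which vanishes on the image of `W` and not at the image of `f`
  -- (`Submodule.exists_le_ker_of_notMem`), `u I = φ (Pi.single I 1)`. Compare `mem_of_Ann`.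
  classical
  let Φ : MvPolynomial (Fin 3) L →ₗ[L] (M3 s → L) :=
    { toFun := fun G I => G.coeff I.1
      map_add' := fun G H => by
        funext I
        simp
      map_smul' := fun c G => by
        funext I
        simp }
  have hΦ : ∀ (G : MvPolynomial (Fin 3) L) (I : M3 s), Φ G I = G.coeff I.1 := fun _ _ => rfl
  have hinj : ∀ G : MvPolynomial (Fin 3) L, G.IsHomogeneous s → Φ G = 0 → G = 0 := by
    intro G hG h0
    ext m
    rw [coeff_zero]
    by_contra hne
    have hm : m ∈ expo (Fin 3) s := by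
      rw [mem_expo]
      by_contra hd
      exact hne (hG.coeff_eq_zero hd)
    have := congrFun h0 ⟨m, hm⟩
    rw [hΦ] at this
    exact hne this
  have hfW' : Φ f ∉ W.map Φ := by
    rintro ⟨g, hg, hgf⟩
    have h1 : Φ (g - f) = 0 := by rw [map_sub, hgf, sub_self]
    have h2 := hinj (g - f) ((hW g hg).sub hf) h1
    rw [sub_eq_zero] at h2
    exact hfW (h2 ▸ hg)
  obtain ⟨φ, hφf, hφW⟩ := Submodule.exists_le_ker_of_notMem hfW'
  have hpr : ∀ G : MvPolynomial (Fin 3) L, pr G (fun I : M3 s => φ (Pi.single I 1)) = φ (Φ G) := by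
    intro G
    have h2 : Φ G = ∑ I : M3 s, G.coeff I.1 • (Pi.single I (1 : L) : M3 s → L) := by
      funext K
      rw [Finset.sum_apply, Finset.sum_eq_single K]
      · rw [hΦ]
        simp
      · intro I _ hI
        rw [Pi.smul_apply, Pi.single_eq_of_ne (Ne.symm hI), smul_zero]
      · intro h
        exact absurd (Finset.mem_univ K) h
    rw [h2, map_sum]
    unfold pr
    refine Finset.sum_congr rfl fun I _ => ?_
    rw [map_smul, smul_eq_mul]
  refine ⟨fun I => φ (Pi.single I 1), fun g hg => ?_, ?_⟩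
  · rw [hpr]
    exact hφW ⟨g, hg, rfl⟩
  · rw [hpr]
    exact hφf

/-- the functionals of degree `d` supported on the curve `A = 0` (`d = d' + a`) -/
noncomputable def HA (A : MvPolynomial (Fin 3) L) (d' d : ℕ) : Submodule L (M3 d → L) :=
  LinearMap.ker (ctr A d' d).mulVecLin

theorem mem_HA {A : MvPolynomial (Fin 3) L} {d' d : ℕ} {u : M3 d → L} :
    u ∈ HA A d' d ↔ (ctr A d' d).mulVec u = 0 := by
  unfold HA
  rw [LinearMap.mem_ker, Matrix.mulVecLin_apply]

/-- the forms which annihilate these functionals are the multiples of `A` -/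
theorem mem_Ann_HA {A : MvPolynomial (Fin 3) L} {a d' d : ℕ} (hd : d' + a = d)
    (hA : A.IsHomogeneous a) {f : MvPolynomial (Fin 3) L} (hf : f.IsHomogeneous d) :
    f ∈ Ann (HA A d' d) ↔ A ∣ f := by
  -- `←`: `f = A * g`, `g` (its component of degree `d'`) a form (`hom_of_mul` if `f ≠ 0`),
  -- `pr (g * A) u = pr g (ctr A u) = 0` (`pr_ctr`). `→`: if `f` is not in the space
  -- `W = {g * A | g form of degree d'}` then `exists_pr_ne` gives `u` with `pr (g * A) u = 0` for
  -- all `g`, so `ctr A u = 0` (`eq_zero_of_pr`), and `pr f u ≠ 0`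
  constructor
  · intro h
    let W : Submodule L (MvPolynomial (Fin 3) L) :=
      { carrier := {G | ∃ g : MvPolynomial (Fin 3) L, g.IsHomogeneous d' ∧ G = g * A}
        add_mem' := by
          rintro G H ⟨g, hg, rfl⟩ ⟨g', hg', rfl⟩
          exact ⟨g + g', hg.add hg', by ring⟩
        zero_mem' := ⟨0, isHomogeneous_zero _ _ _, by ring⟩
        smul_mem' := by
          rintro c G ⟨g, hg, rfl⟩
          refine ⟨c • g, ?_, by rw [smul_mul_assoc]⟩
          rw [smul_eq_C_mul]
          simpa using (isHomogeneous_C (Fin 3) c).mul hg }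
    by_cases hfW : f ∈ W
    · obtain ⟨g, -, rfl⟩ := hfW
      exact dvd_mul_left A g
    · exfalso
      have hW : ∀ P ∈ W, P.IsHomogeneous d := by
        rintro P ⟨g, hg, rfl⟩
        rw [← hd]
        exact hg.mul hA
      obtain ⟨u, hu1, hu2⟩ := exists_pr_ne hW hf hfW
      have hu : u ∈ HA A d' d := by
        rw [mem_HA]
        refine eq_zero_of_pr fun G hG => ?_
        rw [← pr_ctr hd hG hA]
        exact hu1 _ ⟨G, hG, rfl⟩
      exact hu2 ((mem_Ann.1 h).2 u hu)
  · intro hdvd
    rw [mem_Ann]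
    refine ⟨hf, fun u hu => ?_⟩
    rcases eq_or_ne f 0 with rfl | hf0
    · simp [pr]
    obtain ⟨g, rfl⟩ := hdvd
    have hA0 : A ≠ 0 := left_ne_zero_of_mul hf0
    obtain ⟨a', e, hae, hA', hg⟩ := hom_of_mul hf hf0
    have haa : a' = a := hA'.inj_right hA hA0
    have hed : e = d' := by omega
    rw [hed] at hg
    rw [mem_HA] at hu
    rw [mul_comm, pr_ctr hd hg hA, hu]
    simp [pr]

theorem finrank_HA {A : MvPolynomial (Fin 3) L} {a d' d : ℕ} (hd : d' + a = d)
    (hA : A.IsHomogeneous a) (hA0 : A ≠ 0) :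
    finrank L (HA A d' d) + Fintype.card (M3 d') = Fintype.card (M3 d) := by
  -- `ctr A d' d` is onto, see the proof of `height_gcd`
  classical
  obtain ⟨S, hS1, -⟩ := ctr_right_inverse (1 : Valuation L ℤᵐ⁰) (by omega : a + d' = d) hA hA0
  have hsurj : LinearMap.range (ctr A d' d).mulVecLin = ⊤ := by
    rw [LinearMap.range_eq_top]
    intro y
    exact ⟨S.mulVec y, hS1 y⟩
  have h1 := LinearMap.finrank_range_add_finrank_ker (ctr A d' d).mulVecLin
  rw [hsurj, finrank_top, Module.finrank_fintype_fun_eq_card,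
    Module.finrank_fintype_fun_eq_card] at h1
  unfold HA
  omega

end

section

variable {κ L : Type*} [Field κ] [IsAlgClosed κ] [CharZero κ] [Field L] [Algebra κ L]

theorem ht_HA_le (h : IsFF κ L) {A : MvPolynomial (Fin 3) L} {a d' d : ℕ} (hd : d' + a = d)
    (hA : A.IsHomogeneous a) (hA0 : A ≠ 0) :
    ht κ (HA A d' d) ≤ polyHeight κ A * Fintype.card (M3 d') := by
  -- `ht_map` for `T = ctr A d' d`, `τ w = log (nrm w A)`, `A = HA`, `B = ⊤`, `A' = ⊥` (`ht_top`,
  -- `ht_bot`, `ht_nonneg`, `ctr_le_nrm`, `nrm_support`, `finrank_HA`)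
  have h1 := ht_map h (ctr A d' d) (nrm_support h hA0) (A := HA A d' d) (B := ⊤) (A' := ⊥)
    (fun w k m => by
      rw [exp_log (nrm_ne_zero w.1 hA0)]
      unfold ctr
      rw [Matrix.of_apply]
      split_ifs
      · exact le_nrm w.1 A _
      · rw [map_zero]
        exact zero_le) le_top
    (by
      rintro _ ⟨u, hu, rfl⟩
      rw [Submodule.mem_bot, Matrix.mulVecLin_apply]
      exact mem_HA.1 hu)
    (fun b _ hb => mem_HA.2 ((Submodule.mem_bot L).1 hb))
  have h2 := ht_nonneg h (⊥ ⊔ (⊤ : Submodule L (M3 d → L)).map (ctr A d' d).mulVecLin)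
  have h3 := finrank_HA (L := L) hd hA hA0
  rw [ht_top h, ht_bot h, finrank_top, Module.finrank_fintype_fun_eq_card] at h1
  rw [polyHeight_eq]
  have h4 : ((Fintype.card (M3 d) : ℤ) - finrank L (HA A d' d)) = Fintype.card (M3 d') := by
    rw [← h3]
    push_cast
    ring
  rw [h4] at h1
  linarith

end

end Pool.Agent.Lib.MP_44a246_ntZ
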