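import Mathlib
import Pool.Agent.Lib.MP_44a246_ntS.SC4
import Pool.Agent.Lib.MP_44a246_ntS.SC3
import Pool.Agent.Lib.MP_44a246_ntS.SC2

/-!
Slopes and inverse images under constant maps.
-/

namespace Pool.Agent.Lib.MP_44a246_ntZ

open Pool.Agent.Lib.MP_44a246_nt
open Pool.Agent.Lib.MP_44a246_ntL
open Pool.Agent.Lib.MP_44a246_ntS
open Pool.Agent.Lib.MP_e52354_nt
open WithZero Module

variable {κ L : Type*} [Field κ] [IsAlgClosed κ] [CharZero κ] [Field L] [Algebra κ L]
  {ι ι' : Type*} [Fintype ι] [Fintype ι']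

/-- one constant map -/
theorem ht_inf_comap_le (h : IsFF κ L) {μ : ℝ} {ξ : ι' → L} {Q : Submodule L (ι' → L)}
    (hQ : IsSl κ μ ξ Q) (T : Matrix ι' ι κ) (Z : Submodule L (ι → L)) :
    (ht κ (Z ⊓ Q.comap (T.map (algebraMap κ L)).mulVecLin) : ℝ) - ht κ Z ≤
      μ * ((finrank L Z : ℝ) -
        finrank L (Z ⊓ Q.comap (T.map (algebraMap κ L)).mulVecLin : Submodule L (ι → L))) := by
  have hm : ∀ x, (T.map (algebraMap κ L)).mulVecLin x = (T.map (algebraMap κ L)).mulVec x :=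
    fun x => Matrix.mulVecLin_apply _ _
  set f := (T.map (algebraMap κ L)).mulVecLin with hf
  have hA : (Z ⊓ Q.comap f).map f ≤ Q := by
    rw [Submodule.map_le_iff_le_comap]
    exact inf_le_right
  have hinj : ∀ b ∈ Z, f b ∈ Q → b ∈ Z ⊓ Q.comap f := fun b hb hb' => ⟨hb, hb'⟩
  have h2 := ht_map_const h T (A := Z ⊓ Q.comap f) (B := Z) (A' := Q) inf_le_left hA
    (fun b hb hb' => hinj b hb (by rw [hm]; exact hb'))
  have h3 := hQ.le (Q ⊔ Z.map f) le_sup_left
  have h4 := finrank_sup_map (A := Z ⊓ Q.comap f) (B := Z) (A' := Q) inf_le_left f hA hinj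
  have h2' : (ht κ (Q ⊔ Z.map f) : ℝ) + ht κ (Z ⊓ Q.comap f) ≤ ht κ Z + ht κ Q := by
    exact_mod_cast h2
  have h4' : (finrank L (Q ⊔ Z.map f : Submodule L (ι' → L)) : ℝ) +
      finrank L (Z ⊓ Q.comap f : Submodule L (ι → L)) = finrank L Q + finrank L Z := by
    exact_mod_cast h4
  have h5 : (finrank L (Q ⊔ Z.map f : Submodule L (ι' → L)) : ℝ) - finrank L Q =
      finrank L Z - finrank L (Z ⊓ Q.comap f : Submodule L (ι → L)) := by linarith
  rw [h5] at h3
  linarith

/-- several constant maps -/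
theorem ht_inf_iInf_comap_le (h : IsFF κ L) {μ : ℝ} {ξ : ι' → L} {Q : Submodule L (ι' → L)}
    (hQ : IsSl κ μ ξ Q) {γ : Type*} (s : Finset γ) (T : γ → Matrix ι' ι κ)
    (Z : Submodule L (ι → L)) :
    (ht κ (Z ⊓ s.inf fun i => Q.comap ((T i).map (algebraMap κ L)).mulVecLin) : ℝ) - ht κ Z ≤
      μ * ((finrank L Z : ℝ) -
        finrank L (Z ⊓ s.inf fun i => Q.comap ((T i).map (algebraMap κ L)).mulVecLin :
          Submodule L (ι → L))) := by
  classical
  induction s using Finset.induction_on with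
  | empty =>
    rw [Finset.inf_empty, inf_top_eq, sub_self, sub_self, mul_zero]
  | insert a s ha ih =>
    rw [Finset.inf_insert]
    have e : Z ⊓ (Q.comap ((T a).map (algebraMap κ L)).mulVecLin ⊓
        s.inf fun i => Q.comap ((T i).map (algebraMap κ L)).mulVecLin) =
        (Z ⊓ s.inf fun i => Q.comap ((T i).map (algebraMap κ L)).mulVecLin) ⊓
          Q.comap ((T a).map (algebraMap κ L)).mulVecLin := by
      rw [inf_comm (Q.comap ((T a).map (algebraMap κ L)).mulVecLin), inf_assoc]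
    rw [e]
    have h1 := ht_inf_comap_le h hQ (T a)
      (Z ⊓ s.inf fun i => Q.comap ((T i).map (algebraMap κ L)).mulVecLin)
    linarith

end Pool.Agent.Lib.MP_44a246_ntZ
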