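import Mathlib
import Pool.Agent.Lib.MP_44a246_ntZ.Z01
import Pool.Agent.Lib.MP_44a246_ntZ.Z02
import Pool.Agent.Lib.MP_44a246_ntS.SG3
import Pool.Agent.Lib.MP_44a246_ntS.SD6

/-!
The space of large slope contains all functionals supported on the curve.
-/

namespace Pool.Agent.Lib.MP_44a246_ntZ

open Pool.Agent.Lib.MP_44a246_nt
open Pool.Agent.Lib.MP_44a246_ntL
open Pool.Agent.Lib.MP_44a246_ntS
open Pool.Agent.Lib.MP_e52354_nt
open WithZero Module MvPolynomial

variable {κ L : Type*} [Field κ] [IsAlgClosed κ] [CharZero κ] [Field L] [Algebra κ L]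

/-- if the space `Q` does not contain all functionals supported on the curve, then the forms which
annihilate `Q ⊓ HA` have no common factor -/
theorem exists_relPrime [CharZero L] {a d' d : ℕ} (hd : d' + a = d)
    {A : MvPolynomial (Fin 3) L} (hA : A.IsHomogeneous a) (hirr : Irreducible A)
    {Q : Submodule L (M3 d → L)} (hQ : ¬ HA A d' d ≤ Q) :
    ∃ f g : MvPolynomial (Fin 3) L, f ∈ Ann (Q ⊓ HA A d' d) ∧ g ∈ Ann (Q ⊓ HA A d' d) ∧
      IsRelPrime f g := by
  -- `exists_gcd` for `Ann (Q ⊓ HA A d' d)` (it contains `A * X 0 ^ d' ≠ 0`, `mem_Ann_HA`): forms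
  -- `A', f, g` with `A' * f`, `A' * g` in the space, `f, g` relatively prime, and `A'` divides all
  -- elements. `A'` divides `A * X 0 ^ d'` and `A * X 1 ^ d'`; if it is not a unit then it has an
  -- irreducible factor, which divides `A`, because it does not divide both `X 0`, `X 1`; this
  -- factor is associated to `A`. So `A` divides all elements of `Ann (Q ⊓ HA A d' d)`. Let
  -- `u ∈ HA A d' d`, `u ∉ Q`; `mem_of_Ann` gives `G` in `Ann (Q ⊓ HA A d' d)` with `pr G u ≠ 0`,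
  -- but `A ∣ G` and `mem_Ann_HA` give `pr G u = 0`.
  classical
  have hinf : Infinite L := inferInstance
  obtain ⟨u₀, hu₀, hu₀Q⟩ : ∃ u, u ∈ HA A d' d ∧ u ∉ Q := by
    by_contra hcon
    push Not at hcon
    exact hQ hcon
  have hne : Q ⊓ HA A d' d ≠ ⊤ := by
    intro h0
    refine hu₀Q ?_
    have h1 : u₀ ∈ Q ⊓ HA A d' d := by rw [h0]; trivial
    exact h1.1
  obtain ⟨a₁, e₁, A', f, g, -, hA'0, -, -, -, hf, hg, hfg, hdvd⟩ :=
    exists_gcd (W := Ann (Q ⊓ HA A d' d)) (fun P hP => hP.1) (Ann_ne_bot hne)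
  have hmul : ∀ i : Fin 3, A * X i ^ d' ∈ Ann (Q ⊓ HA A d' d) := by
    intro i
    have hX : (X i ^ d' : MvPolynomial (Fin 3) L).IsHomogeneous d' := by
      have h1 := (isHomogeneous_X L i).pow d'
      rwa [one_mul] at h1
    have hhom : (A * X i ^ d').IsHomogeneous d := by
      have h1 := hA.mul hX
      rwa [show a + d' = d by omega] at h1
    have h2 := (mem_Ann_HA hd hA hhom).2 (dvd_mul_right _ _)
    exact ⟨h2.1, fun u hu => h2.2 u hu.2⟩
  have hunit : IsUnit A' := by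
    by_contra hnu
    obtain ⟨π, hπ, hπA'⟩ := WfDvdMonoid.exists_irreducible_factor hnu hA'0
    have hπp : Prime π := UniqueFactorizationMonoid.irreducible_iff_prime.1 hπ
    have hd1 : ∀ i : Fin 3, π ∣ A ∨ π ∣ X i := by
      intro i
      rcases hπp.dvd_or_dvd (hπA'.trans (hdvd _ (hmul i))) with h1 | h1
      · exact Or.inl h1
      · exact Or.inr (hπp.dvd_of_dvd_pow h1)
    have hπA : π ∣ A := by
      rcases hd1 0 with h1 | h1
      · exact h1
      · rcases hd1 1 with h2 | h2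
        · exact h2
        · exfalso
          have hX0 : Irreducible (X 0 : MvPolynomial (Fin 3) L) := (X_prime (i := 0)).irreducible
          have h3 : (X 0 : MvPolynomial (Fin 3) L) ∣ π := (hπ.associated_of_dvd hX0 h1).symm.dvd
          have h4 : (X 0 : MvPolynomial (Fin 3) L) ∣ X 1 := h3.trans h2
          exact absurd (X_dvd_X.1 h4) (by decide)
    have hAπ : A ∣ π := (hπ.associated_of_dvd hirr hπA).symm.dvd
    have hu1 : u₀ ∉ Q ⊓ HA A d' d := fun h1 => hu₀Q h1.1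
    refine hu1 (mem_of_Ann fun G hG => ?_)
    have h1 : A ∣ G := hAπ.trans (hπA'.trans (hdvd G hG))
    exact ((mem_Ann_HA hd hA hG.1).2 h1).2 u₀ hu₀
  refine ⟨A' * f, A' * g, hf, hg, fun D h1 h2 => ?_⟩
  exact hfg ((hunit.dvd_mul_left).1 h1) ((hunit.dvd_mul_left).1 h2)

/-- the functionals all of whose contractions to degree `d` are in `Q ⊓ HA` are killed by the forms
which annihilate `Q ⊓ HA` -/
theorem ctr_eq_zero_of_all {s t d : ℕ} (hd : s + t = d) {Q : Submodule L (M3 s → L)}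
    {u : M3 d → L} (hu : ∀ I : M3 t, (ctr (monomial I.1 (1 : L)) s d).mulVec u ∈ Q)
    {G : MvPolynomial (Fin 3) L} (hG : G ∈ Ann Q) : (ctr G t d).mulVec u = 0 := by
  -- as in `IsSl.ctr_eq_zero`
  funext I
  have hhom : (monomial I.1 (1 : L)).IsHomogeneous t :=
    isHomogeneous_monomial (1 : L) (mem_expo.mp I.2)
  have h1 := pr_ctr (show t + s = d by omega) hhom hG.1 u
  have h2 := pr_ctr hd hG.1 hhom u
  have h3 := hG.2 _ (hu I)
  rw [h3, mul_comm] at h2
  rw [h2, pr_monomial] at h1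
  rw [← h1, Pi.zero_apply]

/-- the number of functionals supported on a curve -/
theorem card_sub_le {a d' d : ℕ} (ha : 1 ≤ a) (hd : d' + a = d) :
    (Fintype.card (M3 d) : ℝ) - Fintype.card (M3 d') ≤ a * (d + 1) := by
  -- `card_M3`: it is `a (2 d - a + 3) / 2`
  have hc : ∀ s : ℕ, (Fintype.card (M3 s) : ℝ) = ((s : ℝ) + 1) * (s + 2) / 2 := by
    intro s
    rw [card_M3]
    have h1 : 2 ∣ (s + 1) * (s + 2) := (Nat.even_mul_succ_self (s + 1)).two_dvd
    rw [Nat.cast_div h1 (by norm_num)]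
    push_cast
    ring
  rw [hc, hc, ← hd]
  have h1 : (1 : ℝ) ≤ a := by exact_mod_cast ha
  have h2 : (0 : ℝ) ≤ d' := Nat.cast_nonneg _
  push_cast
  nlinarith

/-- **The space of large slope contains all functionals supported on the curve.** -/
theorem HA_le_of_isSl [CharZero L] (h : IsFF κ L) {p : Fin 3 → L} (hp : p ≠ 0)
    {a d' d : ℕ} (ha : 1 ≤ a) (hd : d' + a = d)
    {A : MvPolynomial (Fin 3) L} (hA : A.IsHomogeneous a) (hirr : Irreducible A)
    (hAp : eval p A = 0) (hpos : 0 < height κ p)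
    (hα : 8 * (d : ℤ) * polyHeight κ A ≤ height κ p) {μ : ℝ} (hμ0 : 0 < μ)
    (hμ : 4 * a * μ ≤ height κ p) {Q : Submodule L (M3 d → L)} (hQ : IsSl κ μ (xi d p) Q) :
    HA A d' d ≤ Q := by
  -- Suppose not. `exists_relPrime` gives forms `f, g` of degree `d`. Let `t = 6 d`,
  -- `U = HA A (8 d - a) (8 d) ⊓ (intersection over the monomials I of degree 7 d of the inverse
  -- images of Q under ctr (monomial I 1) d (8 d))`. For `u ∈ U` all these contractions are in
  -- `Q ⊓ HA A d' d` (`ctr_mul`, contractions commute), so `f, g` kill `u` (`ctr_eq_zero_of_all`),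
  -- and `xi (8 d) p ∈ U` (`ctr_xi`, `hAp`, `hQ.mem`). By `ht_inf_iInf_comap_le`, `ht_HA_le` and
  -- `card_sub_le`:
  -- `ht U ≤ α card (M3 (8 d - a)) + μ (card (M3 (8 d)) - card (M3 (8 d - a)))`
  -- `     ≤ α 6 d (6 d + 1) / 2 + (h / 4) (6 d + 1) ≤ (15 d / 4 + 5 / 8) h` (`a ≥ 1`).
  -- `core_aux` with the constant `1` in place of `A`, `s = e = d`, in degree `8 d`
  -- (`eval p f = 0` because `xi d p ∈ Q ⊓ HA A d' d`, `pr_xi`): `(4 d + 1) h ≤ ht U`.
  classical
  by_contra hne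
  obtain ⟨f, g, hf, hg, hfg⟩ := exists_relPrime hd hA hirr hne
  have hA0 : A ≠ 0 := hirr.ne_zero
  have had : a ≤ d := by omega
  have hd1 : 1 ≤ d := by omega
  have hD : 6 * d - a + a = 6 * d := by omega
  obtain ⟨T, hT⟩ : ∃ T : M3 (5 * d) → Matrix (M3 d) (M3 (6 * d)) κ,
      T = fun I => ctr (monomial I.1 (1 : κ)) d (6 * d) := ⟨_, rfl⟩
  obtain ⟨Z, hZ⟩ : ∃ Z, Z = HA A (6 * d - a) (6 * d) := ⟨_, rfl⟩
  obtain ⟨U, hU⟩ : ∃ U, U = Z ⊓ (Finset.univ : Finset (M3 (5 * d))).inf fun I =>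
    Q.comap ((T I).map (algebraMap κ L)).mulVecLin := ⟨_, rfl⟩
  have hTm : ∀ I, (T I).map (algebraMap κ L) = ctr (monomial I.1 (1 : L)) d (6 * d) := by
    intro I
    rw [hT]
    show (ctr (monomial I.1 (1 : κ)) d (6 * d)).map (algebraMap κ L) = _
    rw [← ctr_map (algebraMap κ L), MvPolynomial.map_monomial, map_one]
  have hhom : ∀ I : M3 (5 * d), (monomial I.1 (1 : L)).IsHomogeneous (5 * d) := fun I =>
    isHomogeneous_monomial (1 : L) (mem_expo.mp I.2)
  have hUmem : ∀ u, u ∈ U ↔ (ctr A (6 * d - a) (6 * d)).mulVec u = 0 ∧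
      ∀ I : M3 (5 * d), (ctr (monomial I.1 (1 : L)) d (6 * d)).mulVec u ∈ Q := by
    intro u
    rw [hU, Submodule.mem_inf, hZ, mem_HA, Submodule.mem_finsetInf]
    refine and_congr_right fun _ => ⟨fun h1 I => ?_, fun h1 I _ => ?_⟩
    · have h2 := h1 I (Finset.mem_univ I)
      rw [Submodule.mem_comap, Matrix.mulVecLin_apply, hTm] at h2
      exact h2
    · rw [Submodule.mem_comap, Matrix.mulVecLin_apply, hTm]
      exact h1 I
  have hkill : ∀ G ∈ Ann (Q ⊓ HA A d' d), ∀ u ∈ U, (ctr G (5 * d) (6 * d)).mulVec u = 0 := by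
    intro G hG u hu
    rw [hUmem] at hu
    refine ctr_eq_zero_of_all (Q := Q ⊓ HA A d' d) (show d + 5 * d = 6 * d by omega)
      (fun I => Submodule.mem_inf.2 ⟨hu.2 I, ?_⟩) hG
    rw [mem_HA, ctr_mul (show d + 5 * d = 6 * d by omega) hd (hhom I) hA, mul_comm A,
      ← ctr_mul hD (show d' + 5 * d = 6 * d - a by omega) hA (hhom I), hu.1, Matrix.mulVec_zero]
  have hxi : xi (6 * d) p ∈ U := by
    rw [hUmem]
    refine ⟨?_, fun I => ?_⟩
    · rw [ctr_xi hD hA p, hAp, zero_smul]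
    · rw [ctr_xi (show d + 5 * d = 6 * d by omega) (hhom I) p]
      exact Q.smul_mem _ hQ.mem
  have hxid : xi d p ∈ Q ⊓ HA A d' d := by
    refine Submodule.mem_inf.2 ⟨hQ.mem, ?_⟩
    rw [mem_HA, ctr_xi hd hA p, hAp, zero_smul]
  have hev : ∀ G ∈ Ann (Q ⊓ HA A d' d), eval p G = 0 := by
    intro G hG
    have h1 := hG.2 _ hxid
    rwa [pr_xi hG.1] at h1
  have h8 : 6 * d - d = 5 * d := by omega
  have hone : polyHeight κ (1 : MvPolynomial (Fin 3) L) = 0 := by
    rw [polyHeight_eq]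
    have h1 : ∀ w : Place κ L, nrm w.1 (1 : MvPolynomial (Fin 3) L) = 1 := by
      intro w
      refine le_antisymm ?_ ?_
      · unfold nrm
        refine Finset.sup_le fun I _ => ?_
        rw [coeff_one]
        split_ifs
        · rw [map_one]
        · rw [map_zero]
          exact zero_le_one
      · have h2 := le_nrm w.1 (1 : MvPolynomial (Fin 3) L) 0
        rwa [coeff_zero_one, map_one] at h2
    simp only [h1, log_one, finsum_zero]
  have hlow := core_aux h hp (a := 0) (e := d) (s := d) (d := 6 * d) (by omega) (by omega)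
    (isHomogeneous_one (Fin 3) L) one_ne_zero (by rw [map_one]; exact one_ne_zero) hf.1 hg.1 hfg
    (hev f hf) (hev g hg) hxi
    (fun u hu => by rw [one_mul, h8]; exact hkill f hf u hu)
    (fun u hu => by rw [one_mul, h8]; exact hkill g hg u hu)
  rw [hone, mul_zero, add_zero] at hlow
  -- the upper bound
  have hup := ht_inf_iInf_comap_le h hQ (Finset.univ : Finset (M3 (5 * d))) T Z
  rw [← hU] at hup
  have hZht : ht κ Z ≤ polyHeight κ A * Fintype.card (M3 (6 * d - a)) := by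
    rw [hZ]
    exact ht_HA_le h hD hA hA0
  have hZfin : finrank L Z + Fintype.card (M3 (6 * d - a)) = Fintype.card (M3 (6 * d)) := by
    rw [hZ]
    exact finrank_HA hD hA hA0
  have hcard := card_sub_le ha hD
  have hα0 : 0 ≤ polyHeight κ A := polyHeight_nonneg h hA0
  have hcle : (Fintype.card (M3 (6 * d - a)) : ℝ) ≤ 3 * d * (6 * d + 1) := by
    have h1 : (Fintype.card (M3 (6 * d - a)) : ℝ) ≤ Fintype.card (M3 (6 * d - 1)) := by
      rw [card_M3, card_M3]
      have h2 : (6 * d - a + 1) * (6 * d - a + 2) ≤ (6 * d - 1 + 1) * (6 * d - 1 + 2) :=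
        Nat.mul_le_mul (by omega) (by omega)
      exact_mod_cast Nat.div_le_div_right h2
    refine h1.trans ?_
    rw [card_M3]
    have h2 : (6 * d - 1 + 1) * (6 * d - 1 + 2) / 2 = 3 * d * (6 * d + 1) := by
      have h3 : (6 * d - 1 + 1) * (6 * d - 1 + 2) = 2 * (3 * d * (6 * d + 1)) := by
        have h4 : 6 * d - 1 + 1 = 6 * d := by omega
        have h5 : 6 * d - 1 + 2 = 6 * d + 1 := by omega
        rw [h4, h5]
        ring
      rw [h3, Nat.mul_div_cancel_left _ (by norm_num)]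
    rw [h2]
    push_cast
    exact le_rfl
  obtain ⟨hh, hhe⟩ : ∃ hh : ℝ, hh = (height κ p : ℝ) := ⟨_, rfl⟩
  obtain ⟨α, hαe⟩ : ∃ α : ℝ, α = (polyHeight κ A : ℝ) := ⟨_, rfl⟩
  have k1 : (4 * (d : ℝ) + 1) * hh ≤ (ht κ U : ℝ) := by
    have h1 : ((((6 * d : ℕ) : ℤ) - ((0 : ℕ) : ℤ) - 2 * (d : ℤ) + 1) * height κ p : ℤ) ≤ ht κ U := hlow
    have h2 : (((((6 * d : ℕ) : ℤ) - ((0 : ℕ) : ℤ) - 2 * (d : ℤ) + 1) * height κ p : ℤ) : ℝ) ≤ (ht κ U : ℝ) := by
      exact_mod_cast h1
    push_cast at h2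
    rw [hhe]
    linarith
  have k2 : (ht κ Z : ℝ) ≤ α * (Fintype.card (M3 (6 * d - a)) : ℝ) := by
    rw [hαe]
    exact_mod_cast hZht
  have k3 : (finrank L Z : ℝ) + Fintype.card (M3 (6 * d - a)) = Fintype.card (M3 (6 * d)) := by
    exact_mod_cast hZfin
  have k4 : 0 ≤ (finrank L U : ℝ) := Nat.cast_nonneg _
  have k5 : 0 ≤ α := by rw [hαe]; exact_mod_cast hα0
  have k6 : 8 * (d : ℝ) * α ≤ hh := by
    rw [hαe, hhe]
    exact_mod_cast hα
  have k7 : 0 < hh := by rw [hhe]; exact_mod_cast hpos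
  have k8 : 4 * a * μ ≤ hh := by rw [hhe]; exact hμ
  have hd' : (1 : ℝ) ≤ d := by exact_mod_cast hd1
  have m1 : α * (Fintype.card (M3 (6 * d - a)) : ℝ) ≤ α * (3 * d * (6 * d + 1)) :=
    mul_le_mul_of_nonneg_left hcle k5
  have m2 : α * (3 * d * (6 * d + 1)) ≤ 3 * hh / 8 * (6 * d + 1) := by
    have : α * (3 * d * (6 * d + 1)) = 3 * (8 * (d : ℝ) * α) / 8 * (6 * d + 1) := by ring
    rw [this]
    exact mul_le_mul_of_nonneg_right (by linarith) (by linarith)
  have m3 : μ * ((finrank L Z : ℝ) - finrank L U) ≤ μ * (a * ((6 * d : ℕ) + 1)) := by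
    refine mul_le_mul_of_nonneg_left ?_ hμ0.le
    linarith
  have m4 : μ * (a * (((6 * d : ℕ) : ℝ) + 1)) ≤ hh / 4 * (6 * d + 1) := by
    push_cast
    have : μ * (a * (6 * (d : ℝ) + 1)) = (4 * a * μ) / 4 * (6 * d + 1) := by ring
    rw [this]
    exact mul_le_mul_of_nonneg_right (by linarith) (by linarith)
  nlinarith

end Pool.Agent.Lib.MP_44a246_ntZ
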