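import Mathlib
import Pool.Agent.Lib.MP_44a246_ntZ.Z03

/-!
A space of small height which contains `xi d p` contains most of the functionals supported on the
curve.
-/

namespace Pool.Agent.Lib.MP_44a246_ntZ

open Pool.Agent.Lib.MP_44a246_nt
open Pool.Agent.Lib.MP_44a246_ntL
open Pool.Agent.Lib.MP_44a246_ntS
open Pool.Agent.Lib.MP_e52354_nt
open WithZero Module MvPolynomial

variable {κ L : Type*} [Field κ] [IsAlgClosed κ] [CharZero κ] [Field L] [Algebra κ L]

theorem finrank_HA_le_inf [CharZero L] (h : IsFF κ L) {p : Fin 3 → L} (hp : p ≠ 0)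
    {a d' d c : ℕ} (ha : 1 ≤ a) (hd : d' + a = d)
    {A : MvPolynomial (Fin 3) L} (hA : A.IsHomogeneous a) (hirr : Irreducible A)
    (hAp : eval p A = 0) (hpos : 0 < height κ p)
    (hα : 8 * (d : ℤ) * polyHeight κ A ≤ height κ p)
    {U : Submodule L (M3 d → L)} (hU : xi d p ∈ U) (hUh : ht κ U ≤ c * height κ p) :
    finrank L (HA A d' d) ≤ finrank L (HA A d' d ⊓ U : Submodule L (M3 d → L)) + 4 * a * c := by
  have ha' : (0 : ℝ) < 4 * a := by
    have : (1 : ℝ) ≤ a := by exact_mod_cast ha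
    linarith
  have hpos' : (0 : ℝ) < height κ p := by exact_mod_cast hpos
  set μ : ℝ := (height κ p : ℝ) / (4 * a) with hμ
  have hμ0 : 0 < μ := div_pos hpos' ha'
  have hμe : 4 * a * μ = height κ p := by
    rw [hμ]
    field_simp
  obtain ⟨Q, hQ⟩ := exists_isSl h μ (xi d p)
  have hle : HA A d' d ≤ Q :=
    HA_le_of_isSl h hp ha hd hA hirr hAp hpos hα hμ0 hμe.le hQ
  have h1 := hQ.sup h hU
  have h2 : (0 : ℝ) ≤ ht κ (Q ⊔ U) := by exact_mod_cast ht_nonneg h (Q ⊔ U)
  have h3 : (ht κ U : ℝ) ≤ c * height κ p := by exact_mod_cast hUh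
  have h4 : (finrank L (Q ⊔ U : Submodule L (M3 d → L)) : ℝ) - finrank L U ≤ 4 * a * c := by
    have h5 : μ * ((finrank L (Q ⊔ U : Submodule L (M3 d → L)) : ℝ) - finrank L U) ≤
        μ * (4 * a * c) := by
      have h6 : (c : ℝ) * height κ p = μ * (4 * a * c) := by
        rw [← hμe]
        ring
      linarith
    exact le_of_mul_le_mul_left h5 hμ0
  have h7 : finrank L (Q ⊔ U : Submodule L (M3 d → L)) ≤ finrank L U + 4 * a * c := by
    have : (finrank L (Q ⊔ U : Submodule L (M3 d → L)) : ℝ) ≤ ((finrank L U + 4 * a * c : ℕ) : ℝ) := by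
      push_cast
      linarith
    exact_mod_cast this
  have h8 : finrank L (HA A d' d ⊔ U : Submodule L (M3 d → L)) ≤
      finrank L (Q ⊔ U : Submodule L (M3 d → L)) :=
    Submodule.finrank_mono (sup_le_sup_right hle U)
  have h9 := Submodule.finrank_sup_add_finrank_inf_eq (HA A d' d) U
  omega

/-- removing a small space -/
theorem finrank_inf_sup_le {M : Type*} [AddCommGroup M] [Module L M] [Module.Finite L M]
    (H R R' : Submodule L M) :
    finrank L (H ⊓ (R ⊔ R') : Submodule L M) ≤ finrank L (H ⊓ R : Submodule L M) + finrank L R' := by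
  have h1 := Submodule.finrank_sup_add_finrank_inf_eq (H ⊓ (R ⊔ R')) R
  have h2 := Submodule.finrank_sup_add_finrank_inf_eq R R'
  have h3 : finrank L ((H ⊓ (R ⊔ R')) ⊔ R : Submodule L M) ≤
      finrank L (R ⊔ R' : Submodule L M) :=
    Submodule.finrank_mono (sup_le inf_le_right le_sup_left)
  have h4 : finrank L ((H ⊓ (R ⊔ R')) ⊓ R : Submodule L M) ≤
      finrank L (H ⊓ R : Submodule L M) :=
    Submodule.finrank_mono (inf_le_inf_right R inf_le_left)
  omega

end Pool.Agent.Lib.MP_44a246_ntZ
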