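import Mathlib
import Pool.Agent.Lib.MP_44a246_ntZ.Z01
import Pool.Agent.Lib.MP_44a246_ntS.SJ4c
import Pool.Agent.Lib.MP_44a246_ntS.SD4

/-!
Contraction with a linear form with constant coefficients: the codimension in the space of
functionals supported on the curve drops.
-/

namespace Pool.Agent.Lib.MP_44a246_ntZ

open Pool.Agent.Lib.MP_44a246_nt
open Pool.Agent.Lib.MP_44a246_ntL
open Pool.Agent.Lib.MP_44a246_ntS
open Pool.Agent.Lib.MP_e52354_nt
open WithZero Module MvPolynomial

section

variable {L : Type*} [Field L]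

/-- the linear form `X 1 - c X 0` -/
noncomputable def lc (c : L) : MvPolynomial (Fin 3) L := X 1 - C c * X 0

theorem lc_hom (c : L) : (lc c).IsHomogeneous 1 := by
  unfold lc
  exact (isHomogeneous_X L 1).sub (by simpa using isHomogeneous_C_mul_X c (0 : Fin 3))

private theorem z05_deh_lc (c : L) : deh (lc c) = Polynomial.C (Polynomial.X - Polynomial.C c) := by
  unfold deh lc
  rw [map_sub, map_mul, aeval_X, aeval_X, aeval_C]
  have h1 : algebraMap L (Polynomial (Polynomial L)) c = Polynomial.C (Polynomial.C c) := rfl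
  rw [h1]
  simp

private theorem z05_deh_mul (A B : MvPolynomial (Fin 3) L) : deh (A * B) = deh A * deh B := by
  unfold deh
  exact map_mul _ A B

private theorem z05_deh_add (A B : MvPolynomial (Fin 3) L) : deh (A + B) = deh A + deh B := by
  unfold deh
  exact map_add _ A B

/-- the functionals supported on the curve in degree `d` are mapped onto those in degree `d - 1` -/
theorem map_HA {A : MvPolynomial (Fin 3) L} {a d' : ℕ} (hA : A.IsHomogeneous a)
    (hirr : Irreducible A) (hX : (deh A).natDegree ≠ 0) (c : L) :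
    (HA A (d' + 1) (d' + 1 + a)).map (ctr (lc c) (d' + a) (d' + 1 + a)).mulVecLin =
      HA A d' (d' + a) := by
  -- `≤`: contractions commute (`ctr_mul`). `≥`: double annihilator (`mem_of_Ann`): if `G` is a form
  -- of degree `d' + a` with `pr G (ctr (lc c) u) = pr (G * lc c) u = 0` for all `u ∈ HA`, then
  -- `A ∣ G * lc c` (`mem_Ann_HA`), so `A ∣ G` because `A` does not divide `lc c` (`deh (lc c)` has
  -- degree `0` in the outer variable and `deh` is multiplicative), so `pr G` vanishes on `HA A d'`.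
  have hs : d' + a + 1 = d' + 1 + a := by omega
  apply le_antisymm
  · rintro _ ⟨u, hu, rfl⟩
    rw [SetLike.mem_coe, mem_HA] at hu
    rw [mem_HA, Matrix.mulVecLin_apply, ctr_mul hs rfl (lc_hom c) hA u, mul_comm A,
      ← ctr_mul (s := d' + 1 + a) (s' := d' + 1) (s'' := d') rfl rfl hA (lc_hom c) u, hu,
      Matrix.mulVec_zero]
  · intro w hw
    refine mem_of_Ann fun G hG => ?_
    obtain ⟨hG1, hG2⟩ := mem_Ann.1 hG
    have h1 : (G * lc c).IsHomogeneous (d' + 1 + a) := hs ▸ hG1.mul (lc_hom c)
    have h2 : G * lc c ∈ Ann (HA A (d' + 1) (d' + 1 + a)) := by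
      refine mem_Ann.2 ⟨h1, fun u hu => ?_⟩
      rw [pr_ctr hs hG1 (lc_hom c)]
      exact hG2 _ ⟨u, hu, rfl⟩
    have h3 : A ∣ G * lc c := (mem_Ann_HA (by omega) hA h1).1 h2
    have h4 : A ∣ G := by
      refine (hirr.prime.dvd_or_dvd h3).resolve_right fun h5 => ?_
      obtain ⟨g, hg⟩ := h5
      have h6 : Polynomial.C (Polynomial.X - Polynomial.C c) = deh A * deh g := by
        rw [← z05_deh_lc, hg, z05_deh_mul]
      have h7 : deh A * deh g ≠ 0 := by
        rw [← h6, Ne, Polynomial.C_eq_zero]
        exact Polynomial.X_sub_C_ne_zero c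
      have h8 := Polynomial.natDegree_mul (left_ne_zero_of_mul h7) (right_ne_zero_of_mul h7)
      rw [← h6, Polynomial.natDegree_C] at h8
      omega
    exact (mem_Ann.1 ((mem_Ann_HA rfl hA hG1).2 h4)).2 w hw

/-- for almost all constants: a form which is not divisible by `A` is not in the ideal
`(A, X 1 - c X 0)` -/
theorem exists_lc {κ : Type*} [Field κ] [Infinite κ] [Algebra κ L] {A : MvPolynomial (Fin 3) L}
    (hirr : Irreducible (deh A)) (hX : (deh A).natDegree ≠ 0) {f : MvPolynomial (Fin 3) L}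
    (hf : ¬ deh A ∣ deh f) :
    ∃ c : κ, ∀ g g' : MvPolynomial (Fin 3) L, f ≠ g * A + g' * lc (algebraMap κ L c) := by
  -- `r = Polynomial.resultant (deh A) (deh f) ≠ 0` (`dvd_of_resultant`) and
  -- `p * deh A + q * deh f = C r` (`Polynomial.exists_mul_add_mul_eq_C_resultant`, as in `bez`).
  -- Choose `c` with `r.eval c ≠ 0` and `(deh A).leadingCoeff.eval c ≠ 0` (finitely many exceptions).
  -- If `f = g * A + g' * lc c` then specialise the inner variable to `c`
  -- (`Polynomial.map (Polynomial.evalRingHom c)`): `deh (lc c) = C (X - C c) ↦ 0`, so the nonzero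
  -- constant `r.eval c` is a multiple of the polynomial `(deh A).map ..` of degree
  -- `(deh A).natDegree ≠ 0`, impossible.
  classical
  have hr0 : Polynomial.resultant (deh A) (deh f) ≠ 0 := fun h => hf (dvd_of_resultant hirr hX h)
  obtain ⟨p, q, -, -, e⟩ :=
    Polynomial.exists_mul_add_mul_eq_C_resultant (deh A) (deh f) le_rfl le_rfl (Or.inl hX)
  obtain ⟨r, hr⟩ : ∃ r, Polynomial.resultant (deh A) (deh f) = r := ⟨_, rfl⟩
  rw [hr] at hr0 e
  have hl0 : (deh A).leadingCoeff ≠ 0 := Polynomial.leadingCoeff_ne_zero.2 hirr.ne_zero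
  have hc : ∃ c : κ, (r * (deh A).leadingCoeff).eval (algebraMap κ L c) ≠ 0 := by
    by_contra hcon
    push Not at hcon
    refine mul_ne_zero hr0 hl0 (Polynomial.eq_zero_of_infinite_isRoot _ ?_)
    refine (Set.infinite_range_of_injective (algebraMap κ L).injective).mono ?_
    rintro _ ⟨c, rfl⟩
    exact hcon c
  obtain ⟨c, hc⟩ := hc
  rw [Polynomial.eval_mul] at hc
  refine ⟨c, fun g g' h => ?_⟩
  have h1 : deh f = deh g * deh A + deh g' * Polynomial.C (Polynomial.X - Polynomial.C (algebraMap κ L c)) := by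
    rw [h, z05_deh_add, z05_deh_mul, z05_deh_mul, z05_deh_lc]
  have h2 := congrArg (Polynomial.map (Polynomial.evalRingHom (algebraMap κ L c))) e
  rw [h1] at h2
  simp only [Polynomial.map_add, Polynomial.map_mul, Polynomial.map_C, Polynomial.coe_evalRingHom,
    Polynomial.eval_sub, Polynomial.eval_X, Polynomial.eval_C, sub_self, Polynomial.C_0, mul_zero,
    add_zero] at h2
  obtain ⟨A', hA'⟩ : ∃ A', Polynomial.map (Polynomial.evalRingHom (algebraMap κ L c)) (deh A) = A' := ⟨_, rfl⟩
  have h3 : A'.natDegree = (deh A).natDegree := by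
    rw [← hA']
    refine Polynomial.natDegree_map_of_leadingCoeff_ne_zero _ ?_
    rw [Polynomial.coe_evalRingHom]
    exact right_ne_zero_of_mul hc
  rw [hA'] at h2
  have h4 : A' ∣ Polynomial.C (Polynomial.eval (algebraMap κ L c) r) := by
    rw [← h2]
    exact dvd_add (Dvd.intro _ rfl) ((Dvd.intro_left _ rfl).mul_right _)
  have h5 : Polynomial.C (Polynomial.eval (algebraMap κ L c) r) ≠ 0 := by
    rw [Ne, Polynomial.C_eq_zero]
    exact left_ne_zero_of_mul hc
  have h6 := Polynomial.natDegree_le_of_dvd h4 h5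
  rw [Polynomial.natDegree_C, h3] at h6
  omega

end

end Pool.Agent.Lib.MP_44a246_ntZ
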