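import Mathlib
import Pool.Agent.Lib.MP_44a246_ntS.SJ5d
import Pool.Agent.Lib.MP_44a246_ntS.SE1
import Pool.Agent.Lib.MP_44a246_ntS.SJ3b
import Pool.Agent.Lib.MP_44a246_ntS.SF2b

/-!
Homogenisation of irreducible polynomials in two variables.
-/

namespace Pool.Agent.Lib.MP_44a246_ntZ

open Pool.Agent.Lib.MP_44a246_nt
open Pool.Agent.Lib.MP_44a246_ntL
open Pool.Agent.Lib.MP_44a246_ntS
open Pool.Agent.Lib.MP_e52354_nt
open WithZero Module

variable {L : Type*} [Field L]

private theorem deh_mul (A B : MvPolynomial (Fin 3) L) : deh (A * B) = deh A * deh B := by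
  unfold deh
  exact map_mul _ _ _

open Polynomial in
private theorem deh_X0_pow (k : ℕ) : deh ((MvPolynomial.X 0 : MvPolynomial (Fin 3) L) ^ k) = 1 := by
  unfold deh
  rw [map_pow, MvPolynomial.aeval_X]
  simp

open Polynomial in
private theorem deh_monomial (d : Fin 3 →₀ ℕ) (c : L) :
    deh (MvPolynomial.monomial d c) = C (C c * X ^ d 1) * X ^ d 2 := by
  unfold deh
  rw [MvPolynomial.aeval_monomial, Finsupp.prod_fintype _ _ (fun i => pow_zero _),
    Fin.prod_univ_three]
  have h2 : algebraMap L L[X][X] c = C (C c) := rfl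
  rw [h2]
  simp only [Matrix.cons_val_zero, Matrix.cons_val_one, Matrix.cons_val, one_pow, one_mul]
  rw [C_mul, C_pow]
  ring

open Polynomial in
/-- homogenisation to a given degree -/
private theorem exists_hom {A : L[X][X]} {a : ℕ}
    (h : ∀ i j, (A.coeff j).coeff i ≠ 0 → i + j ≤ a) :
    ∃ P : MvPolynomial (Fin 3) L, P.IsHomogeneous a ∧ deh P = A := by
  classical
  refine ⟨∑ j ∈ A.support, ∑ i ∈ (A.coeff j).support, MvPolynomial.monomial
    (Finsupp.single 0 (a - i - j) + Finsupp.single 1 i + Finsupp.single 2 j)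
    ((A.coeff j).coeff i), ?_, ?_⟩
  · refine MvPolynomial.IsHomogeneous.sum _ _ _ fun j _ => ?_
    refine MvPolynomial.IsHomogeneous.sum _ _ _ fun i hi => ?_
    have h1 := h i j (mem_support_iff.1 hi)
    refine MvPolynomial.isHomogeneous_monomial _ ?_
    rw [Finsupp.degree_eq_sum, Fin.sum_univ_three]
    simp
    omega
  · have h3 : deh (∑ j ∈ A.support, ∑ i ∈ (A.coeff j).support, MvPolynomial.monomial
        (Finsupp.single 0 (a - i - j) + Finsupp.single 1 i + Finsupp.single 2 j)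
        ((A.coeff j).coeff i)) =
        ∑ j ∈ A.support, ∑ i ∈ (A.coeff j).support, deh (MvPolynomial.monomial
        (Finsupp.single 0 (a - i - j) + Finsupp.single 1 i + Finsupp.single 2 j)
        ((A.coeff j).coeff i)) := by
      unfold deh
      rw [map_sum]
      exact Finset.sum_congr rfl fun j _ => map_sum _ _ _
    rw [h3]
    conv_rhs => rw [A.as_sum_support_C_mul_X_pow]
    refine Finset.sum_congr rfl fun j _ => ?_
    conv_rhs => rw [(A.coeff j).as_sum_support_C_mul_X_pow, map_sum, Finset.sum_mul]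
    refine Finset.sum_congr rfl fun i _ => ?_
    rw [deh_monomial]
    simp

/-- forms of the same degree are determined by the dehomogenisation -/
private theorem deh_inj {A B : MvPolynomial (Fin 3) L} {a : ℕ} (hA : A.IsHomogeneous a)
    (hB : B.IsHomogeneous a) (h : deh A = deh B) : A = B := by
  by_contra hne
  have h1 := deh_ne_zero (hA.sub hB) (sub_ne_zero.2 hne)
  apply h1
  unfold deh at h ⊢
  rw [map_sub, h, sub_self]

open Polynomial in
/-- the largest value of `i + j` over the nonzero coefficients -/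
private theorem exists_top {A : L[X][X]} (hA : A ≠ 0) :
    ∃ i₀ j₀, (A.coeff j₀).coeff i₀ ≠ 0 ∧ ∀ i j, (A.coeff j).coeff i ≠ 0 → i + j ≤ i₀ + j₀ := by
  classical
  have hne : (A.support.sigma fun j => (A.coeff j).support).Nonempty := by
    obtain ⟨j, hj⟩ := support_nonempty.2 hA
    obtain ⟨i, hi⟩ := support_nonempty.2 (mem_support_iff.1 hj)
    exact ⟨⟨j, i⟩, Finset.mem_sigma.2 ⟨hj, hi⟩⟩
  obtain ⟨⟨j₀, i₀⟩, h0, hmax⟩ := Finset.exists_max_image _ (fun x : (_ : ℕ) × ℕ => x.2 + x.1) hne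
  refine ⟨i₀, j₀, mem_support_iff.1 (Finset.mem_sigma.1 h0).2, fun i j hij => ?_⟩
  refine hmax ⟨j, i⟩ (Finset.mem_sigma.2 ⟨?_, mem_support_iff.2 hij⟩)
  rw [Polynomial.mem_support_iff]
  intro h1
  apply hij
  simp only at h1
  rw [h1, coeff_zero]

open Polynomial in
/-- homogenisation: the total degree is at most `2 b` -/
theorem exists_form {b : ℕ} {A : L[X][X]} (hA : Irreducible A) (hb : Box b A) :
    ∃ (a : ℕ) (P : MvPolynomial (Fin 3) L), a ≤ 2 * b ∧ P.IsHomogeneous a ∧ deh P = A ∧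
      Irreducible P := by
  -- `a` = the maximum of `i + j` over the nonzero coefficients of `X ^ i Y ^ j` in `A`,
  -- `P = ∑ coefficient * X 0 ^ (a - i - j) * X 1 ^ i * X 2 ^ j`. If `P = P₁ * P₂` then `P₁, P₂` are
  -- forms (`hom_of_mul`), `deh P₁ * deh P₂ = A`, so e.g. `deh P₁` is a unit, a constant `c ≠ 0`;
  -- by `deh_coeff`: `P₁ = c X 0 ^ a₁`; and `X 0` does not divide `P` by the choice of `a`. So
  -- `a₁ = 0` and `P₁` is a unit. `P` is not a unit because `deh P = A` is not.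
  obtain ⟨i₀, j₀, h0, hmax⟩ := exists_top hA.ne_zero
  obtain ⟨P, hP, hPA⟩ := exists_hom hmax
  have hP0 : P ≠ 0 := by
    rintro rfl
    apply hA.ne_zero
    rw [← hPA]
    unfold deh
    exact map_zero _
  -- a factor whose dehomogenisation is a unit is a unit
  have key : ∀ P₁ P₂ : MvPolynomial (Fin 3) L, P = P₁ * P₂ → IsUnit (deh P₁) → IsUnit P₁ := by
    intro P₁ P₂ h hu
    obtain ⟨a₁, a₂, hs, h1, h2⟩ := hom_of_mul (h ▸ hP) (h ▸ hP0)
    obtain ⟨r, hr, hrP⟩ := Polynomial.isUnit_iff.1 hu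
    obtain ⟨c, hc, hcr⟩ := Polynomial.isUnit_iff.1 hr
    have h3 : A = C (C c) * deh P₂ := by
      rw [← hPA, h, deh_mul, ← hrP, hcr]
    have h4 : ((deh P₂).coeff j₀).coeff i₀ ≠ 0 := by
      intro h5
      apply h0
      rw [h3, coeff_C_mul, coeff_C_mul, h5, mul_zero]
    rw [deh_coeff h2] at h4
    have h5 : i₀ + j₀ ≤ a₂ := by
      by_contra h6
      exact h4 (if_neg h6)
    have h6 : a₁ = 0 := by omega
    subst h6
    have h7 := MvPolynomial.totalDegree_eq_zero_iff_eq_C.1 (Nat.le_zero.1 h1.totalDegree_le)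
    rw [h7]
    refine IsUnit.map MvPolynomial.C (IsUnit.mk0 _ fun h8 => ?_)
    rw [h8, map_zero] at h7
    apply hP0
    rw [h, h7, zero_mul]
  refine ⟨i₀ + j₀, P, ?_, hP, hPA, ?_, ?_⟩
  · have h1 : j₀ ≤ b := by
      refine le_trans (le_natDegree_of_ne_zero fun h => h0 ?_) hb.1
      rw [h, coeff_zero]
    have h2 : i₀ ≤ b := le_trans (le_natDegree_of_ne_zero h0) (hb.2 j₀)
    omega
  · intro hu
    apply hA.not_isUnit
    rw [← hPA]
    unfold deh
    exact hu.map _
  · intro P₁ P₂ h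
    have h1 : A = deh P₁ * deh P₂ := by rw [← hPA, h, deh_mul]
    rcases hA.isUnit_or_isUnit h1 with h2 | h2
    · exact Or.inl (key P₁ P₂ h h2)
    · exact Or.inr (key P₂ P₁ (by rw [h, mul_comm]) h2)

/-- divisibility of forms can be tested after dehomogenisation -/
theorem dvd_of_deh_dvd {A f : MvPolynomial (Fin 3) L} {a d : ℕ} (hA : A.IsHomogeneous a)
    (hirr : Irreducible A) (hX : (deh A).natDegree ≠ 0) (hf : f.IsHomogeneous d)
    (h : deh A ∣ deh f) : A ∣ f := by
  -- `deh f = deh A * q`; homogenise `q`: there are a form `G` and `k` with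
  -- `X 0 ^ k * f = A * G` (compare coefficients, `deh_coeff`; `deh` is injective on forms of the
  -- same degree); `A` is prime and does not divide `X 0` (`deh (X 0) = 1`)
  rcases eq_or_ne f 0 with rfl | hf0
  · exact dvd_zero _
  obtain ⟨q, hq⟩ := h
  have hq0 : q ≠ 0 := by
    rintro rfl
    exact deh_ne_zero hf hf0 (by rw [hq, mul_zero])
  obtain ⟨i₀, j₀, -, hmax⟩ := exists_top hq0
  obtain ⟨G, hG, hGq⟩ := exists_hom hmax
  have hX0 : ∀ k, ((MvPolynomial.X 0 : MvPolynomial (Fin 3) L) ^ k).IsHomogeneous k := by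
    intro k
    have := (MvPolynomial.isHomogeneous_X L (0 : Fin 3)).pow k
    rwa [one_mul] at this
  set N := max (a + (i₀ + j₀)) d with hN
  have h1 : (MvPolynomial.X 0 ^ (N - d) * f).IsHomogeneous N := by
    have := (hX0 (N - d)).mul hf
    rwa [Nat.sub_add_cancel (le_max_right _ _)] at this
  have h2 : (MvPolynomial.X 0 ^ (N - (a + (i₀ + j₀))) * (A * G)).IsHomogeneous N := by
    have := (hX0 (N - (a + (i₀ + j₀)))).mul (hA.mul hG)
    rwa [Nat.sub_add_cancel (le_max_left _ _)] at this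
  have h3 : MvPolynomial.X 0 ^ (N - d) * f = MvPolynomial.X 0 ^ (N - (a + (i₀ + j₀))) * (A * G) := by
    refine deh_inj h1 h2 ?_
    rw [deh_mul, deh_mul, deh_mul, deh_X0_pow, deh_X0_pow, one_mul, one_mul, hGq, hq]
  have hpr : Prime A := hirr.prime
  have h4 : A ∣ MvPolynomial.X 0 ^ (N - d) * f := by
    rw [h3]
    exact Dvd.intro_left _ (by ring : MvPolynomial.X 0 ^ (N - (a + (i₀ + j₀))) * G * A = _)
  rcases hpr.dvd_or_dvd h4 with h5 | h5
  · exfalso
    apply hX
    obtain ⟨g, hg⟩ := h5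
    have h6 := congrArg deh hg
    rw [deh_X0_pow, deh_mul] at h6
    exact Polynomial.natDegree_eq_zero_of_isUnit (IsUnit.of_mul_eq_one _ h6.symm)
  · exact h5

end Pool.Agent.Lib.MP_44a246_ntZ
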