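import Mathlib
import Pool.Agent.Lib.MP_44a246_ntZ.Z05
import Pool.Agent.Lib.MP_44a246_ntZ.Z07

/-!
Contraction with a linear form with constant coefficients: the codimension in the space of
functionals supported on the curve drops.
-/

namespace Pool.Agent.Lib.MP_44a246_ntZ

open Pool.Agent.Lib.MP_44a246_nt
open Pool.Agent.Lib.MP_44a246_ntL
open Pool.Agent.Lib.MP_44a246_ntS
open Pool.Agent.Lib.MP_e52354_nt
open WithZero Module MvPolynomial

variable {κ L : Type*} [Field κ] [Infinite κ] [Field L] [Algebra κ L]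

section

variable {L : Type*} [Field L]

/-- the forms `g * A + g' * B` -/
private def idSub (A B : MvPolynomial (Fin 3) L) (m n : ℕ) :
    Submodule L (MvPolynomial (Fin 3) L) where
  carrier := {P | ∃ g g' : MvPolynomial (Fin 3) L, g.IsHomogeneous m ∧ g'.IsHomogeneous n ∧
    P = g * A + g' * B}
  add_mem' := by
    rintro P Q ⟨g, g', h1, h2, rfl⟩ ⟨k, k', h3, h4, rfl⟩
    exact ⟨g + k, g' + k', h1.add h3, h2.add h4, by ring⟩
  zero_mem' := ⟨0, 0, isHomogeneous_zero _ _ _, isHomogeneous_zero _ _ _, by simp⟩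
  smul_mem' := by
    rintro c P ⟨g, g', h1, h2, rfl⟩
    refine ⟨C c * g, C c * g', ?_, ?_, ?_⟩
    · simpa using (isHomogeneous_C (Fin 3) c).mul h1
    · simpa using (isHomogeneous_C (Fin 3) c).mul h2
    · rw [smul_eq_C_mul]
      ring

/-- rank and nullity on a subspace -/
private theorem finrank_map_add {M N : Type*} [AddCommGroup M] [Module L M] [Module.Finite L M]
    [AddCommGroup N] [Module L N] (f : M →ₗ[L] N) (V : Submodule L M) :
    finrank L (V.map f) + finrank L (LinearMap.ker f ⊓ V : Submodule L M) = finrank L V := by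
  have h := LinearMap.finrank_range_add_finrank_ker (f.domRestrict V)
  rw [LinearMap.range_domRestrict] at h
  have e : LinearMap.ker (f.domRestrict V) =
      (LinearMap.ker f ⊓ V).comap V.subtype := by
    ext x
    simp [LinearMap.domRestrict_apply]
  rw [e, (Submodule.comapSubtypeEquivOfLe (inf_le_right : LinearMap.ker f ⊓ V ≤ V)).finrank_eq]
    at h
  exact h

end

/-- **One contraction.** -/
theorem exists_contraction {A : MvPolynomial (Fin 3) L} {a d' w : ℕ} (hA : A.IsHomogeneous a)
    (hirr : Irreducible A) (hirr' : Irreducible (deh A)) (hX : (deh A).natDegree ≠ 0)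
    {R : Submodule L (M3 (d' + 1 + a) → L)}
    (hR : finrank L (HA A (d' + 1) (d' + 1 + a)) ≤
      finrank L (HA A (d' + 1) (d' + 1 + a) ⊓ R : Submodule L (M3 (d' + 1 + a) → L)) + (w + 1)) :
    ∃ c : κ, finrank L (HA A d' (d' + a)) ≤
      finrank L (HA A d' (d' + a) ⊓
        R.map (ctr (lc (algebraMap κ L c)) (d' + a) (d' + 1 + a)).mulVecLin :
          Submodule L (M3 (d' + a) → L)) + w := by
  -- Let `H = HA A (d' + 1) _`, `S = H ⊓ R`. If `H ≤ R` every `c` works (`map_HA`). Otherwise there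
  -- is `u₀ ∈ H`, `u₀ ∉ S` and (`mem_of_Ann`) a form `f` in `Ann S` with `pr f u₀ ≠ 0`; it is not
  -- divisible by `A` (`mem_Ann_HA`). `exists_lc` (`¬ deh A ∣ deh f`: if `deh f = deh A * q` ... ;
  -- see `dvd_of_deh_dvd` in `Z07`, or show it directly) gives `c`. The kernel `K` of the
  -- contraction on `H` is not contained in `S`: otherwise `f` annihilates `K`, and
  -- `W = {g * A + g' * lc c}` (forms `g`, `g'` of degrees `d' + 1`, `d' + a`) is a space of forms
  -- of degree `d' + 1 + a` which does not contain `f`, so `exists_pr_ne` gives a `u` killed by `A`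
  -- and `lc c` (`u ∈ K`) with `pr f u ≠ 0`. Hence `finrank (S ⊓ K) ≤ finrank K - 1` and
  -- `finrank (map S) = finrank S - finrank (S ⊓ K) ≥ finrank H - (w + 1) - finrank K + 1 =`
  -- `finrank (map H) - w`, and `map S ≤ HA A d' _ ⊓ map R`.
  classical
  set H : Submodule L (M3 (d' + 1 + a) → L) := HA A (d' + 1) (d' + 1 + a) with hHdef
  by_cases hHR : H ≤ R
  · refine ⟨0, ?_⟩
    have h1 := map_HA hA hirr hX (algebraMap κ L 0) (d' := d')
    have h2 : HA A d' (d' + a) ≤
        R.map (ctr (lc (algebraMap κ L 0)) (d' + a) (d' + 1 + a)).mulVecLin := by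
      rw [← h1]
      exact Submodule.map_mono hHR
    rw [inf_eq_left.2 h2]
    omega
  · obtain ⟨u₀, hu₀, hu₀R⟩ := Set.not_subset.1 hHR
    have hu₀S : u₀ ∉ H ⊓ R := fun h => hu₀R h.2
    have h1 : ∃ f ∈ Ann (H ⊓ R), pr f u₀ ≠ 0 := by
      by_contra hcon
      push Not at hcon
      exact hu₀S (mem_of_Ann hcon)
    obtain ⟨f, hfS, hfu⟩ := h1
    have hfhom : f.IsHomogeneous (d' + 1 + a) := hfS.1
    have hAf : ¬ A ∣ f := by
      intro hdvd
      have h2 := (mem_Ann_HA (rfl : d' + 1 + a = d' + 1 + a) hA hfhom).2 hdvd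
      exact hfu (h2.2 u₀ hu₀)
    have hdeh : ¬ deh A ∣ deh f := fun h => hAf (dvd_of_deh_dvd hA hirr hX hfhom h)
    obtain ⟨c, hc⟩ := exists_lc (κ := κ) hirr' hX hdeh
    refine ⟨c, ?_⟩
    set T := (ctr (lc (algebraMap κ L c)) (d' + a) (d' + 1 + a)).mulVecLin with hT
    have hmapH : H.map T = HA A d' (d' + a) := map_HA hA hirr hX (algebraMap κ L c)
    -- the kernel of the contraction on `H` is not contained in `R`
    have hK : ¬ LinearMap.ker T ⊓ H ≤ LinearMap.ker T ⊓ (H ⊓ R) := by
      intro hle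
      have hW : ∀ P ∈ idSub A (lc (algebraMap κ L c)) (d' + 1) (d' + a),
          P.IsHomogeneous (d' + 1 + a) := by
        rintro P ⟨g, g', h2, h3, rfl⟩
        have h4 := h2.mul hA
        have h5 := h3.mul (lc_hom (algebraMap κ L c))
        have h6 : d' + a + 1 = d' + 1 + a := by omega
        rw [h6] at h5
        exact h4.add h5
      have hfW : f ∉ idSub A (lc (algebraMap κ L c)) (d' + 1) (d' + a) := by
        rintro ⟨g, g', _, _, h2⟩
        exact hc g g' h2
      obtain ⟨u, hu1, hu2⟩ := exists_pr_ne hW hfhom hfW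
      have huH : u ∈ H := by
        rw [hHdef, mem_HA]
        refine eq_zero_of_pr fun G hG => ?_
        rw [← pr_ctr (rfl : d' + 1 + a = d' + 1 + a) hG hA]
        exact hu1 _ ⟨G, 0, hG, isHomogeneous_zero _ _ _, by simp⟩
      have huT : u ∈ LinearMap.ker T := by
        rw [LinearMap.mem_ker, hT, Matrix.mulVecLin_apply]
        refine eq_zero_of_pr fun G hG => ?_
        rw [← pr_ctr (by omega : d' + a + 1 = d' + 1 + a) hG (lc_hom _)]
        exact hu1 _ ⟨0, G, isHomogeneous_zero _ _ _, hG, by simp⟩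
      have huR := hle ⟨huT, huH⟩
      exact hu2 (hfS.2 u huR.2)
    have hlt : LinearMap.ker T ⊓ (H ⊓ R) < LinearMap.ker T ⊓ H :=
      lt_of_le_not_ge (inf_le_inf_left _ inf_le_left) hK
    have h2 := Submodule.finrank_lt_finrank_of_lt hlt
    have h3 := finrank_map_add T H
    have h4 := finrank_map_add T (H ⊓ R)
    rw [hmapH] at h3
    have h5 : (H ⊓ R).map T ≤ HA A d' (d' + a) ⊓ R.map T := by
      refine le_inf ?_ (Submodule.map_mono inf_le_right)
      rw [← hmapH]
      exact Submodule.map_mono inf_le_left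
    have h6 := Submodule.finrank_mono h5
    omega

end Pool.Agent.Lib.MP_44a246_ntZ
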