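import Mathlib
import Pool.Agent.Lib.MP_44a246_ntZ.Z04
import Pool.Agent.Lib.MP_44a246_ntZ.Z06
import Pool.Agent.Lib.MP_44a246_ntZ.Z07

/-!
The height of the curve.
-/

namespace Pool.Agent.Lib.MP_44a246_ntZ

open Pool.Agent.Lib.MP_44a246_nt
open Pool.Agent.Lib.MP_44a246_ntL
open Pool.Agent.Lib.MP_44a246_ntS
open Pool.Agent.Lib.MP_e52354_nt
open WithZero Module MvPolynomial

variable {κ L : Type*} [Field κ] [IsAlgClosed κ] [CharZero κ] [Field L] [Algebra κ L]

/-- iterated contraction -/
theorem exists_contractions (h : IsFF κ L) {A : MvPolynomial (Fin 3) L} {a : ℕ}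
    (hA : A.IsHomogeneous a) (hirr : Irreducible A) (hirr' : Irreducible (deh A))
    (hX : (deh A).natDegree ≠ 0) (w : ℕ) {d' : ℕ} {R : Submodule L (M3 (d' + w + a) → L)}
    (hR : finrank L (HA A (d' + w) (d' + w + a)) ≤
      finrank L (HA A (d' + w) (d' + w + a) ⊓ R : Submodule L (M3 (d' + w + a) → L)) + w) :
    ∃ R' : Submodule L (M3 (d' + a) → L), HA A d' (d' + a) ≤ R' ∧ finrank L R' ≤ finrank L R ∧
      ht κ R' ≤ ht κ R := by
  have hinf : Infinite κ := inferInstance
  induction w with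
  | zero =>
    refine ⟨R, ?_, le_rfl, le_rfl⟩
    have h1 : HA A (d' + 0) (d' + 0 + a) ⊓ R = HA A (d' + 0) (d' + 0 + a) :=
      Submodule.eq_of_le_of_finrank_le inf_le_left (by simpa using hR)
    exact inf_eq_left.mp h1
  | succ w ih =>
    obtain ⟨c, hc⟩ := exists_contraction (κ := κ) hA hirr hirr' hX (d' := d' + w) (w := w)
      (R := R) hR
    obtain ⟨R', h1, h2, h3⟩ := ih hc
    refine ⟨R', h1, h2.trans (Submodule.finrank_map_le _ _), h3.trans ?_⟩
    have hT : (ctr (lc c) (d' + w + a) (d' + w + 1 + a)).map (algebraMap κ L) =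
        ctr (lc (algebraMap κ L c)) (d' + w + a) (d' + w + 1 + a) := by
      rw [← ctr_map (algebraMap κ L)]
      congr 1
      simp [lc]
    have h4 := ht_map_const_le h (ctr (lc c) (d' + w + a) (d' + w + 1 + a)) R
    rw [hT] at h4
    exact h4

/-- **The height of the curve**: if a space `R` contains the functionals supported on the curve up
to codimension `w` then its height is large. -/
theorem polyHeight_le_of_inf (h : IsFF κ L) {A : MvPolynomial (Fin 3) L} {a : ℕ}
    (hA : A.IsHomogeneous a) (hirr : Irreducible A) (hirr' : Irreducible (deh A))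
    (hX : (deh A).natDegree ≠ 0) {w d' d : ℕ} (hd : d' + w + a = d)
    {R : Submodule L (M3 d → L)}
    (hR : finrank L (HA A (d' + w) d) ≤
      finrank L (HA A (d' + w) d ⊓ R : Submodule L (M3 d → L)) + w) :
    polyHeight κ A * ((Fintype.card (M3 (d' + a)) : ℤ) - finrank L R) ≤ ht κ R := by
  subst hd
  obtain ⟨R', h1, h2, h3⟩ := exists_contractions h hA hirr hirr' hX w hR
  have hA0 : A ≠ 0 := hirr.ne_zero
  obtain ⟨h4, -⟩ := height_gcd h (s := d' + a) (a := a) (e := d') rfl (Q := R') hA hA0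
    (fun G hG => (mem_Ann_HA (rfl : d' + a = d' + a) hA hG.1).mp
      ⟨hG.1, fun u hu => hG.2 u (h1 hu)⟩)
  have h5 := polyHeight_nonneg (κ := κ) h hA0
  have h6 : (finrank L R' : ℤ) ≤ finrank L R := by exact_mod_cast h2
  have h7 : polyHeight κ A * ((Fintype.card (M3 (d' + a)) : ℤ) - finrank L R) ≤
      polyHeight κ A * ((Fintype.card (M3 (d' + a)) : ℤ) - finrank L R') :=
    mul_le_mul_of_nonneg_left (by linarith) h5
  linarith

end Pool.Agent.Lib.MP_44a246_ntZ
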