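import Mathlib
import Pool.Agent.Lib.MP_44a246_ntZ.Z08

/-!
The height of a plane curve of small degree through the point, from a space of small height which
contains the vector of the monomials.
-/

namespace Pool.Agent.Lib.MP_44a246_ntZ

open Pool.Agent.Lib.MP_44a246_nt
open Pool.Agent.Lib.MP_44a246_ntL
open Pool.Agent.Lib.MP_44a246_ntS
open Pool.Agent.Lib.MP_e52354_nt
open WithZero Module Polynomial

variable {κ L : Type*} [Field κ] [IsAlgClosed κ] [CharZero κ] [Field L] [Algebra κ L]

/-- **The height of the curve.** If the vector of the monomials lies in `R ⊔ R'`, a space of height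
at most `c` times the height of the point, and `R'` is of small dimension, the height of the curve
is bounded by the height of `R`. -/
theorem gh_mul_le [CharZero L] (h : IsFF κ L) {y₁ y : L} {b c q w d : ℕ} {A : L[X][X]}
    (hirr : Irreducible A) (hbox : Box b A) (hdeg : A.natDegree ≠ 0) (hA : A.evalEval y₁ y = 0)
    (hpos : 0 < height κ ![1, y₁, y])
    (hα : 8 * (d : ℤ) * gh κ A ≤ height κ ![1, y₁, y]) {R R' : Submodule L (M3 d → L)}
    (hU : xi d ![1, y₁, y] ∈ R ⊔ R') (hq : finrank L R' ≤ q)
    (hUh : ht κ (R ⊔ R') ≤ c * height κ ![1, y₁, y]) (hw : 8 * b * c + q ≤ w)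
    (hwd : w + 2 * b ≤ d) :
    gh κ A * ((Fintype.card (M3 (d - w)) : ℤ) - finrank L R) ≤ ht κ R := by
  obtain ⟨a, P, ha, hP, hPA, hPirr⟩ := exists_form hirr hbox
  have ha1 : 1 ≤ a := by
    by_contra h0
    have h1 := (deh_box hP).1
    rw [hPA] at h1
    omega
  have hp : (![1, y₁, y] : Fin 3 → L) ≠ 0 := by
    intro h0
    have := congrFun h0 0
    simp at this
  have hgh : gh κ A = polyHeight κ P := by rw [← hPA, gh_deh hP]
  have hPe : MvPolynomial.eval ![1, y₁, y] P = 0 := by
    rw [← deh_eval, hPA]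
    exact hA
  have hac : 4 * a * c ≤ 8 * b * c := by
    have : 4 * a ≤ 8 * b := by omega
    exact Nat.mul_le_mul_right c this
  obtain ⟨d', hd'⟩ : ∃ d', d' + w + a = d := ⟨d - w - a, by omega⟩
  have h1 := finrank_HA_le_inf h hp ha1 hd' hP hPirr hPe hpos (by rw [← hgh]; exact hα) hU hUh
  have h2 := finrank_inf_sup_le (L := L) (HA P (d' + w) d) R R'
  have h3 := polyHeight_le_of_inf h hP hPirr (by rw [hPA]; exact hirr) (by rw [hPA]; exact hdeg)
    hd' (R := R) (by omega)
  rw [hgh]
  have h4 : d' + a = d - w := by omega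
  rw [h4] at h3
  exact h3

end Pool.Agent.Lib.MP_44a246_ntZ
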