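import Mathlib
import Pool.Agent.Lib.MP_44a246_ntZ.Z09
import Pool.Agent.Lib.MP_44a246_ntG.G20

/-!
The curve through the point of a hypersurface section (or of an arbitrary point with a small row
of the value of the form) has a height which is bounded by the poles of the derivations.
-/

namespace Pool.Agent.Lib.MP_44a246_ntZ

open Pool.Agent.Lib.MP_44a246_nt
open Pool.Agent.Lib.MP_44a246_ntL
open Pool.Agent.Lib.MP_44a246_ntS
open Pool.Agent.Lib.MP_44a246_ntX
open Pool.Agent.Lib.MP_44a246_ntW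
open Pool.Agent.Lib.MP_44a246_ntG
open Pool.Agent.Lib.MP_e52354_nt
open WithZero Module Polynomial

variable {κ L : Type*} [Field κ] [IsAlgClosed κ] [CharZero κ] [Field L] [Algebra κ L]

/-- the span of the rows of the coefficients -/
noncomputable def RC {κ L : Type*} [Field κ] [Field L] [Algebra κ L] {n d : ℕ}
    (X : DatG κ (L := L) n d) (J : Finset (Fin (n + 1))) (b : ℕ) (A : L[X][X]) :
    Submodule L (M3 d → L) :=
  Finset.univ.sup fun t : Option ↥J × Fin (b + 1) × Fin (b + 1) =>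
    Submodule.span L {X.row (((t.1.elim A (fun k => X.B A k.1)).coeff t.2.1).coeff t.2.2)}

omit [IsAlgClosed κ] [CharZero κ] in
theorem VJ_eq {n d : ℕ} (X : DatG κ (L := L) n d) (J : Finset (Fin (n + 1))) (b : ℕ)
    (A : L[X][X]) : X.VJ J b A = RC X J b A ⊔ Submodule.span L {X.row X.y₁} := rfl

/-- the height of the span of the rows of the coefficients -/
theorem ht_RC_le (h : IsFF κ L) {n d : ℕ} (X : DatG κ (L := L) n d) {b : ℕ} {A : L[X][X]}
    (hA : CrvG X b A) (J : Finset (Fin (n + 1))) :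
    ht κ (RC X J b A) ≤ finrank L (RC X J b A) * (4 * gh κ A + 3 * X.Δ) + X.R := by
  have hA0 : A ≠ 0 := hA.irr.ne_zero
  have s0 := gg_support h hA0
  have s1 : (Function.support fun w : Place κ L => 2 * log (gg w.1 A)).Finite := by
    refine s0.subset fun w hw h1 => hw ?_
    simp only at h1 ⊢
    rw [h1, mul_zero]
  have s2 : (Function.support fun w : Place κ L => (X.δ w : ℤ)).Finite := by
    refine X.hδ.subset fun w hw h1 => hw ?_
    simp only at h1 ⊢
    rw [h1, Nat.cast_zero]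
  have s3 : (Function.support fun _ : Place κ L => (0 : ℤ)).Finite := by
    have : (Function.support fun _ : Place κ L => (0 : ℤ)) = ∅ := by
      ext w
      simp
    rw [this]
    exact Set.finite_empty
  have hlog : ∀ w : Place κ L, 0 ≤ log (gg w.1 A) := by
    intro w
    rw [le_log_iff_exp_le ((gg_eq_zero w.1).not.2 hA0), exp_zero]
    exact one_le_gg hA.one w
  have hrow1 : X.row 1 = 0 := by
    have := X.row_natCast 1
    rwa [Nat.cast_one] at this
  have hV : RC X J b A = Submodule.span L (Set.range fun t : Option (Option ↥J ×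
      Fin (b + 1) × Fin (b + 1)) => X.row (t.elim 1
        fun t => ((t.1.elim A (fun k => X.B A k.1)).coeff t.2.1).coeff t.2.2)) := by
    unfold RC
    rw [Submodule.span_range_eq_iSup, iSup_option, Finset.sup_univ_eq_iSup]
    simp only [Option.elim_none, Option.elim_some, hrow1, Submodule.span_zero_singleton,
      bot_sup_eq]
  have hmain := ht_span_row_le X h (fun t : Option (Option ↥J ×
      Fin (b + 1) × Fin (b + 1)) => t.elim 1
        fun t => ((t.1.elim A (fun k => X.B A k.1)).coeff t.2.1).coeff t.2.2)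
    (g := fun w => 2 * log (gg w.1 A) + (X.δ w : ℤ)) (g' := fun _ => 0)
    ((s1.union s2).subset (Function.support_add _ _)) s3
    (fun w => by have := hlog w; positivity) (fun _ => le_rfl) (fun t w => ?_) (fun w => ?_) hV
  · have e1 : ∑ᶠ w : Place κ L, (2 * log (gg w.1 A) + (X.δ w : ℤ)) = 2 * gh κ A + X.Δ := by
      rw [finsum_add_distrib s1 s2, ← mul_finsum]
      rfl
    rw [e1, finsum_zero, mul_zero, add_zero] at hmain
    have h3 : (finrank L (RC X J b A) : ℤ) * (2 * (2 * gh κ A + X.Δ) + X.Δ) =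
        (finrank L (RC X J b A) : ℤ) * (4 * gh κ A + 3 * X.Δ) := by ring
    rw [h3] at hmain
    exact hmain
  · have ha0 : gg w.1 A ≠ 0 := (gg_eq_zero w.1).not.2 hA0
    have hexp : (exp (2 * log (gg w.1 A) + (X.δ w : ℤ)) : ℤᵐ⁰) =
        gg w.1 A ^ 2 * exp (X.δ w : ℤ) := by
      rw [exp_add, show (2 * log (gg w.1 A) : ℤ) = (2 : ℕ) • log (gg w.1 A) by simp, exp_nsmul,
        exp_log ha0]
    simp only [Option.elim_some]
    rw [hexp]
    have ha : 1 ≤ gg w.1 A := one_le_gg hA.one w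
    have he : (1 : ℤᵐ⁰) ≤ exp (X.δ w : ℤ) := by
      rw [← exp_zero, exp_le_exp]
      positivity
    rcases t with ⟨_ | k, i, j⟩
    · refine (le_gg w.1 A i j).trans ?_
      calc gg w.1 A = gg w.1 A * 1 * 1 := by rw [mul_one, mul_one]
        _ ≤ gg w.1 A * gg w.1 A * exp (X.δ w : ℤ) :=
          mul_le_mul' (mul_le_mul' le_rfl ha) he
        _ = gg w.1 A ^ 2 * exp (X.δ w : ℤ) := by rw [sq]
    · exact (le_gg w.1 (X.B A k.1) i j).trans (X.B_le hA k.1 w)
  · simp only [Option.elim_none, map_one, exp_zero, le_refl]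

/-- numerical facts -/
theorem numZ {r d T s : ℕ} (hT : 1 ≤ T) (hT2 : 2000 * T ^ 2 ≤ d)
    (hN : 2 * r + 8500 * T ^ 2 + T * (r + 2) ≤ T * d) (hs3 : 3 ≤ s) (hq : 2500 * (T * s) ≤ d)
    {H α Δ E : ℤ} (hH : 0 < H) (hΔ : 0 ≤ Δ) (hE : Δ ≤ E) (hα0 : 0 ≤ α)
    (hα : 5 * (α * ((d / 8 : ℕ) : ℤ) ^ 2) ≤ 16 * (s * H)) (hbig : 27 * (d : ℤ) ^ 2 * E < H) :
    8 * (d : ℤ) * α ≤ H ∧
      ((NN r T : ℕ) : ℤ) * (4 * α + 3 * Δ) + (s - 1) * H + E ≤ (s + 1) * H := by
  obtain ⟨h1, h2, -⟩ := numW1 hT hT2 hN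
  have h3 : d ≤ 8 * (d / 8) + 7 := by omega
  have hT1 : (1 : ℤ) ≤ T := by exact_mod_cast hT
  have h1' : 8500 * (T : ℤ) + 2 ≤ d := by
    have : 8500 * T + 2 ≤ d := by omega
    exact_mod_cast this
  have h2' : 10 * ((NN r T : ℕ) : ℤ) ≤ 41 * (T * d) := by exact_mod_cast h2
  generalize hs : ((d / 8 : ℕ) : ℤ) = S at hα
  have h3' : (d : ℤ) ≤ 8 * S + 7 := by rw [← hs]; exact_mod_cast h3
  have hq' : 2500 * ((T : ℤ) * s) ≤ d := by exact_mod_cast hq
  have hs3' : (3 : ℤ) ≤ s := by exact_mod_cast hs3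
  have hM0 : (0 : ℤ) ≤ ((NN r T : ℕ) : ℤ) := by positivity
  generalize ((NN r T : ℕ) : ℤ) = M at h2' hM0 ⊢
  generalize (s : ℤ) = s' at hs3' hq' hα ⊢
  generalize (d : ℤ) = D at h1' h2' h3' hq' hbig ⊢
  generalize (T : ℤ) = U at hT1 h1' h2' hq'
  have hE0 : 0 ≤ E := hΔ.trans hE
  have hD0 : 8502 ≤ D := by linarith
  have hS0 : 1062 ≤ S := by linarith
  -- `D ^ 2 ≤ 65 S ^ 2`
  have hD2 : D ^ 2 ≤ 65 * S ^ 2 := by nlinarith
  -- `α D ^ 2 ≤ 208 s H`
  have h4 : α * D ^ 2 ≤ 208 * (s' * H) := by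
    have h5 : α * D ^ 2 ≤ α * (65 * S ^ 2) := mul_le_mul_of_nonneg_left hD2 hα0
    linarith
  have hUs : s' ≤ U * s' := le_mul_of_one_le_left (by linarith) hT1
  have hsH : 2500 * (s' * H) ≤ D * H := by
    have := mul_le_mul_of_nonneg_right (hUs.trans (le_refl _)) hH.le
    have h6 := mul_le_mul_of_nonneg_right hq' hH.le
    linarith
  have hDpos : 0 < D := by linarith
  constructor
  · have h6 : D * (8 * D * α) ≤ D * H := by nlinarith
    exact le_of_mul_le_mul_left h6 hDpos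
  · have h7 : D * (M * α) * 10 ≤ 41 * (U * (α * D ^ 2)) := by
      have h8 := mul_le_mul_of_nonneg_right h2' (mul_nonneg hDpos.le hα0)
      calc D * (M * α) * 10 = 10 * M * (D * α) := by ring
        _ ≤ 41 * (U * D) * (D * α) := h8
        _ = 41 * (U * (α * D ^ 2)) := by ring
    have h9 : U * (α * D ^ 2) ≤ U * (208 * (s' * H)) :=
      mul_le_mul_of_nonneg_left h4 (by linarith)
    have h10 : 2500 * (U * s' * H) ≤ D * H := by
      have := mul_le_mul_of_nonneg_right hq' hH.le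
      linarith
    have h11 : D * (4 * (M * α)) * 25000 ≤ D * (34112 * H) := by nlinarith
    have h12 : 4 * (M * α) * 25000 ≤ 34112 * H := by
      have : D * (4 * (M * α) * 25000) ≤ D * (34112 * H) := by linarith
      exact le_of_mul_le_mul_left this hDpos
    -- the terms with `Δ` and `E`
    have h13 : 8500 * (U * D) ≤ D ^ 2 := by nlinarith
    have h14 : M * Δ ≤ D ^ 2 * E := by
      have h15 : M ≤ D ^ 2 := by nlinarith
      exact mul_le_mul h15 hE hΔ (by positivity)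
    have h16 : 85000 * (M * Δ) ≤ 41 * (D ^ 2 * E) := by
      have h17 : 85000 * M ≤ 41 * D ^ 2 := by nlinarith
      have h18 := mul_le_mul_of_nonneg_right h17 hΔ
      have h19 : D ^ 2 * Δ ≤ D ^ 2 * E := mul_le_mul_of_nonneg_left hE (by positivity)
      nlinarith
    have h20 : E ≤ D ^ 2 * E := by
      have : 1 ≤ D ^ 2 := by nlinarith
      exact le_mul_of_one_le_left hE0 this
    have h21 : 27 * (D ^ 2 * E) < H := by linarith
    have e : M * (4 * α + 3 * Δ) + (s' - 1) * H + E =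
        4 * (M * α) + 3 * (M * Δ) + E + (s' + 1) * H - 2 * H := by ring
    rw [e]
    linarith

/-- the number of the monomials -/
theorem numCard {N r d T s : ℕ} (hq : 2500 * (T * s) ≤ d)
    (n1 : 8500 * T + r + 2 ≤ d) (n2 : 10 * N ≤ 41 * (T * d)) :
    25 * N + 2 * d ^ 2 ≤ 5 * Fintype.card (M3 (d - 24 * (T * s))) := by
  rw [card_M3]
  obtain ⟨m, hm⟩ : ∃ m, d = m + 24 * (T * s) := ⟨d - 24 * (T * s), by omega⟩
  have hm1 : d - 24 * (T * s) = m := by omega
  rw [hm1]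
  obtain ⟨c, hc⟩ : 2 ∣ (m + 1) * (m + 2) := (Nat.even_mul_succ_self (m + 1)).two_dvd
  rw [hc, Nat.mul_div_cancel_left _ (by norm_num)]
  have h2 : 100 * d ≤ 101 * m := by omega
  have h3 : 8500 * (T * d) ≤ d * d := by
    have : 8500 * T ≤ d := by omega
    calc 8500 * (T * d) = 8500 * T * d := by ring
      _ ≤ d * d := Nat.mul_le_mul_right _ this
  have h4 : 10000 * (d * d) ≤ 10201 * (m * m) := by
    calc 10000 * (d * d) = (100 * d) * (100 * d) := by ring
      _ ≤ (101 * m) * (101 * m) := Nat.mul_le_mul h2 h2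
      _ = 10201 * (m * m) := by ring
  have h5 : m * m ≤ 2 * c := by
    rw [← hc]
    exact Nat.mul_le_mul (by omega) (by omega)
  have h6 : d ^ 2 = d * d := sq d
  rw [h6]
  generalize d * d = x at h3 h4 ⊢
  generalize m * m = y at h4 h5
  generalize T * d = z at h3 n2
  omega

/-- the final computation -/
theorem numFin {U D M P ρ α Δ R : ℤ} (hT1 : 1 ≤ U) (hdT : 8500 * U + 2 ≤ D)
    (hn2 : 10 * M ≤ 41 * (U * D)) (hα0 : 0 ≤ α) (hΔ : 0 ≤ Δ) (hR : 0 ≤ R) (hRC' : ρ ≤ M)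
    (hcard' : 25 * M + 2 * D ^ 2 ≤ 5 * P)
    (hle : α * (P - ρ) ≤ ρ * (4 * α + 3 * Δ) + R) : D ^ 2 * α ≤ D ^ 2 * Δ + 3 * R := by
  have e1 : α * (P - M) ≤ α * (P - ρ) := mul_le_mul_of_nonneg_left (by linarith) hα0
  have e2 : ρ * (4 * α + 3 * Δ) ≤ M * (4 * α + 3 * Δ) :=
    mul_le_mul_of_nonneg_right hRC' (by linarith)
  have e3 : α * (25 * M + 2 * D ^ 2) ≤ α * (5 * P) := mul_le_mul_of_nonneg_left hcard' hα0
  have e4 : 8500 * (U * D) ≤ D ^ 2 := by nlinarith
  have e5 : 15 * M ≤ D ^ 2 := by nlinarith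
  have e6 : 15 * (M * Δ) ≤ D ^ 2 * Δ := by
    have := mul_le_mul_of_nonneg_right e5 hΔ
    linarith
  have e7 : 0 ≤ D ^ 2 * Δ := by positivity
  have e8 : 2 * (D ^ 2 * α) ≤ 15 * (M * Δ) + 5 * R := by linarith
  linarith

/-- **The height of the curve is bounded by the poles of the derivations.** -/
theorem gh_le_B2 [CharZero L] (h : IsFF κ L) {n d T r s : ℕ} (hT : 1 ≤ T)
    (hT2 : 2000 * T ^ 2 ≤ d) (hN : 2 * r + 8500 * T ^ 2 + T * (r + 2) ≤ T * d) (hs3 : 3 ≤ s)
    (hq : 2500 * (T * s) ≤ d) (X : DatG κ (L := L) n d) {A : L[X][X]} (hCA : CrvG X (2 * T) A)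
    (hmon : A.leadingCoeff.Monic) (hr : finrank L X.Ux ≤ r) {E : ℤ}
    (hv : ∀ {J : Finset (Fin (n + 1))} {N : ℕ}, finrank L (X.VJ J (2 * T) A) ≤ N →
      ht κ (X.VJ J (2 * T) A ⊔ Submodule.span L {X.row X.v}) ≤
        N * (4 * gh κ A + 3 * X.Δ) + (s - 1) * height κ X.x + E)
    (hE : X.Δ ≤ E) (hbig : 27 * (d : ℤ) ^ 2 * E < height κ X.x)
    (hα : 5 * (gh κ A * ((d / 8 : ℕ) : ℤ) ^ 2) ≤ 16 * ((s : ℤ) * height κ X.x)) :
    (d : ℤ) ^ 2 * gh κ A ≤ (d : ℤ) ^ 2 * X.Δ + 3 * X.R := by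
  have hΔ := X.Δ_nonneg
  have hR := X.R_nonneg
  have hE0 : 0 ≤ E := hΔ.trans hE
  have hpos : 0 < height κ X.x :=
    lt_of_le_of_lt (mul_nonneg (by positivity) hE0) hbig
  have hα0 : 0 ≤ gh κ A := gh_nonneg h hCA.irr.ne_zero
  obtain ⟨n1, n2, n3⟩ := numW1 hT hT2 hN
  obtain ⟨m1, m2⟩ := numZ hT hT2 hN hs3 hq hpos hΔ hE hα0 hα hbig
  obtain ⟨J, hJc, hJ⟩ := exists_J X
  have hJr : J.card ≤ r := by
    rw [hJc]
    exact hr
  have hT1 : (1 : ℤ) ≤ T := by exact_mod_cast hT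
  have hdT : 8500 * (T : ℤ) + 2 ≤ d := by
    have : 8500 * T + 2 ≤ d := by omega
    exact_mod_cast this
  -- the span condition
  have hspan : 9 * ((2 * T : ℕ) : ℤ) * gh κ A + 3 * ((2 * T : ℕ) : ℤ) * X.Δ < height κ X.x := by
    push_cast
    have h1 : 8500 * ((T : ℤ) * gh κ A) ≤ d * gh κ A := by
      have := mul_le_mul_of_nonneg_right (show 8500 * (T : ℤ) ≤ d by linarith) hα0
      linarith
    have h2 : (T : ℤ) * X.Δ ≤ (d : ℤ) ^ 2 * E := by
      have h3 : (T : ℤ) ≤ (d : ℤ) ^ 2 := by nlinarith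
      exact mul_le_mul h3 hE hΔ (by positivity)
    nlinarith
  have hVJ := finrank_VJ_span h X J hCA hmon hspan
  have hVJN : finrank L (X.VJ J (2 * T) A) ≤ NN r T := by
    refine hVJ.trans ?_
    unfold NN
    have : 2 * (2 * T) * J.card ≤ 2 * (2 * T) * (r + 1) := Nat.mul_le_mul_left _ (by omega)
    omega
  have hRC : finrank L (RC X J (2 * T) A) ≤ NN r T :=
    (Submodule.finrank_mono (by rw [VJ_eq]; exact le_sup_left)).trans hVJN
  -- the small space
  set R' : Submodule L (M3 d → L) := Submodule.span L {X.row X.y₁} ⊔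
    Submodule.span L {X.row X.v} with hR'
  have hsup : RC X J (2 * T) A ⊔ R' = X.VJ J (2 * T) A ⊔ Submodule.span L {X.row X.v} := by
    rw [hR', ← sup_assoc, ← VJ_eq]
  have hone : ∀ v : M3 d → L, finrank L ↥(Submodule.span L ({v} : Set (M3 d → L))) ≤ 1 := by
    intro v
    have h3 := finrank_span_le_card (R := L) ({v} : Set (M3 d → L))
    simpa using h3
  have hq2 : finrank L R' ≤ 2 :=
    (Submodule.finrank_add_le_finrank_add_finrank _ _).trans (add_le_add (hone _) (hone _))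
  have hht : ht κ (RC X J (2 * T) A ⊔ R') ≤ (s + 1 : ℕ) * height κ X.x := by
    rw [hsup]
    have h1 := hv hVJN
    push_cast
    linarith
  have hhp : height κ ![1, X.y₁, X.y] = height κ X.x := X.height_p
  have hTs : T ≤ T * s := Nat.le_mul_of_pos_right _ (by omega)
  have hTs3 : 3 * T ≤ T * s := by
    calc 3 * T = T * 3 := mul_comm _ _
      _ ≤ T * s := Nat.mul_le_mul_left _ hs3
  have key := gh_mul_le (b := 2 * T) (c := s + 1) (q := 2) (w := 24 * (T * s)) (d := d) h hCA.irr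
    hCA.box hCA.deg hCA.zero (by rw [hhp]; exact hpos) (by rw [hhp]; exact m1)
    (by rw [hsup]; exact X.xi_mem_VJ hCA hJ) hq2 (by rw [hhp]; exact hht)
    (by
      have : 8 * (2 * T) * (s + 1) = 16 * (T * s) + 16 * T := by ring
      omega) (by omega)
  have hle := key.trans (ht_RC_le h X hCA J)
  -- the number of the monomials
  have hcard' : 25 * ((NN r T : ℕ) : ℤ) + 2 * (d : ℤ) ^ 2 ≤
      5 * (Fintype.card (M3 (d - 24 * (T * s))) : ℤ) := by
    exact_mod_cast numCard hq n1 n2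
  have hRC' : (finrank L (RC X J (2 * T) A) : ℤ) ≤ ((NN r T : ℕ) : ℤ) := by exact_mod_cast hRC
  have hn2 : 10 * ((NN r T : ℕ) : ℤ) ≤ 41 * (T * d) := by exact_mod_cast n2
  exact numFin hT1 hdT hn2 hα0 hΔ hR hRC' hcard' hle

end Pool.Agent.Lib.MP_44a246_ntZ
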