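import Mathlib
import Pool.Agent.Lib.MP_44a246_ntZ.Z10
import Pool.Agent.Lib.MP_44a246_ntG.G21

/-!
The height theorem for hypersurface sections of arbitrary varieties, without a condition on the
degrees of the equations of the variety.
-/

namespace Pool.Agent.Lib.MP_44a246_ntZ

open Pool.Agent.Lib.MP_44a246_nt
open Pool.Agent.Lib.MP_44a246_ntL
open Pool.Agent.Lib.MP_44a246_ntS
open Pool.Agent.Lib.MP_44a246_ntX
open Pool.Agent.Lib.MP_44a246_ntW
open Pool.Agent.Lib.MP_44a246_ntG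
open Pool.Agent.Lib.MP_e52354_nt
open WithZero Module Polynomial

/-- the hypothesis of step C, from the bound for the height of the curve -/
theorem numZ2 {D U e M α Δ Θ R H : ℤ} (hD : 1 ≤ D) (hU : 1 ≤ U) (hUD : 2 * U ≤ 27 * D ^ 2)
    (he0 : 0 ≤ e) (he : e ≤ M) (hΔ : 0 ≤ Δ) (hΘ : 0 ≤ Θ) (hR : 0 ≤ R)
    (hα : D ^ 2 * α ≤ D ^ 2 * Δ + 3 * R)
    (hbig : D ^ 2 * ((27 * D ^ 2 + 8 * U * M) * (Δ + Θ)) + 18 * U * M * R < D ^ 2 * H) :
    (e * (2 * U)) * α + 2 * U * (Θ + e * (2 * α + Δ)) < H := by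
  have hD2 : 0 < D ^ 2 := by positivity
  have hUe : 0 ≤ U * e := mul_nonneg (by linarith) he0
  have hUeM : U * e ≤ U * M := mul_le_mul_of_nonneg_left he (by linarith)
  have h1 : U * e * (D ^ 2 * α) ≤ U * e * (D ^ 2 * Δ + 3 * R) := mul_le_mul_of_nonneg_left hα hUe
  have h2 : U * e * (D ^ 2 * Δ) ≤ U * M * (D ^ 2 * Δ) :=
    mul_le_mul_of_nonneg_right hUeM (by positivity)
  have h3 : U * e * R ≤ U * M * R := mul_le_mul_of_nonneg_right hUeM hR
  have h4 : 2 * U * (D ^ 2 * Θ) ≤ 27 * D ^ 2 * (D ^ 2 * Θ) :=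
    mul_le_mul_of_nonneg_right hUD (by positivity)
  have h5 : 0 ≤ D ^ 2 * (27 * D ^ 2 * Δ) := by positivity
  have h6 : 0 ≤ U * M * (D ^ 2 * Θ) :=
    mul_nonneg (mul_nonneg (by linarith) (he0.trans he)) (by positivity)
  have h7 : D ^ 2 * ((e * (2 * U)) * α + 2 * U * (Θ + e * (2 * α + Δ))) < D ^ 2 * H := by
    calc D ^ 2 * ((e * (2 * U)) * α + 2 * U * (Θ + e * (2 * α + Δ))) =
          6 * (U * e * (D ^ 2 * α)) + 2 * U * (D ^ 2 * Θ) + 2 * (U * e * (D ^ 2 * Δ)) := by ring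
      _ < D ^ 2 * H := by nlinarith
  exact lt_of_mul_lt_mul_left h7 hD2.le

/-- **The height theorem** for a zero of the form on a variety given by forms of degree at most `M`
(any number): `r` is a bound for the rank of the rows of the coordinates, and the ramification is
at most `q` times the height. -/
theorem height_V2' {κ L : Type*} [Field κ] [IsAlgClosed κ] [CharZero κ] [Field L] [CharZero L]
    [Algebra κ L] (h : IsFF κ L) {n r d T q M : ℕ} (hT : 1 ≤ T) (hT2 : 2000 * T ^ 2 ≤ d)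
    (hq : 2500 * (T * (q + 3)) ≤ d)
    (hN : 2 * r + 8500 * T ^ 2 + T * (r + 2 + q) ≤ T * d) (X : DatG κ (L := L) n d)
    (hv : X.v = 0) (hr : finrank L X.Ux ≤ r) (hR : X.R ≤ q * height κ X.x)
    {τ : Place κ L → ℕ} (hτ : (Function.support τ).Finite)
    {ι : Type*} {e : ι → ℕ} {a : ι → (Fin (n + 1) →₀ ℕ) → L} (he : ∀ i, e i ≤ M)
    (ha : ∀ i, ∀ I ∈ expo (Fin (n + 1)) (e i), ∀ w : Place κ L, w.1 (a i I) ≤ exp (τ w : ℤ))
    (hz : ∀ i, Fval (e i) (a i) X.x = 0) :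
    (d : ℤ) ^ 2 * height κ X.x ≤
        (d : ℤ) ^ 2 * ((27 * d ^ 2 + 8 * T * M) * (X.Δ + ∑ᶠ w, (τ w : ℤ))) +
          18 * T * M * X.R ∨
      CertV e a (2 * T) X.x := by
  have hΔ := X.Δ_nonneg
  have hR0 := X.R_nonneg
  have hΘ : 0 ≤ ∑ᶠ w, (τ w : ℤ) := finsum_nonneg fun w => Int.natCast_nonneg _
  rcases le_or_gt ((d : ℤ) ^ 2 * height κ X.x)
    ((d : ℤ) ^ 2 * ((27 * d ^ 2 + 8 * T * M) * (X.Δ + ∑ᶠ w, (τ w : ℤ))) + 18 * T * M * X.R)
    with hle | hbig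
  · exact Or.inl hle
  right
  generalize hΘe : ∑ᶠ w, (τ w : ℤ) = Θ at hΘ hbig
  have hN' : 2 * r + 8500 * T ^ 2 + T * (r + 2) ≤ T * d := by
    have : T * (r + 2) ≤ T * (r + 2 + q) := Nat.mul_le_mul_left _ (by omega)
    omega
  have hd1 : 1 ≤ d := by
    have h1 : 1 ≤ T ^ 2 := Nat.one_le_pow _ _ hT
    omega
  have hd1' : (1 : ℤ) ≤ d := by exact_mod_cast hd1
  have hd2' : (0 : ℤ) < (d : ℤ) ^ 2 := by positivity
  have hM0 : (0 : ℤ) ≤ 8 * T * M := by positivity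
  have hM1 : (0 : ℤ) ≤ 18 * T * M * X.R := mul_nonneg (by positivity) hR0
  have hbig'' : (27 * (d : ℤ) ^ 2 + 8 * T * M) * (X.Δ + Θ) < height κ X.x := by
    refine lt_of_mul_lt_mul_left ?_ hd2'.le
    linarith
  have hpos : 0 < height κ X.x :=
    lt_of_le_of_lt (mul_nonneg (by positivity) (add_nonneg hΔ hΘ)) hbig''
  have hbig' : 27 * (d : ℤ) ^ 2 * X.Δ < height κ X.x := by
    have h1 : 0 ≤ 27 * (d : ℤ) ^ 2 * Θ := mul_nonneg (by positivity) hΘ
    have h2 : 0 ≤ (8 * T * M : ℤ) * (X.Δ + Θ) := mul_nonneg hM0 (add_nonneg hΔ hΘ)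
    linarith
  have hU : X.U = X.Ux := X.U_of_zero hv
  have hvVJ : ∀ {b : ℕ} {A : L[X][X]}, CrvG X b A → ∀ {J : Finset (Fin (n + 1))} {N : ℕ},
      finrank L (X.VJ J b A) ≤ N → ht κ (X.VJ J b A ⊔ Submodule.span L {X.row X.v}) ≤
        N * (4 * gh κ A + 3 * X.Δ) + (((q + 3 : ℕ) : ℤ) - 1) * height κ X.x + X.Δ := by
    intro b A hA J N hVN
    rw [hv, X.row_zero, Submodule.span_zero_singleton, sup_bot_eq]
    have h1 := ht_VJ_le X hA h hVN
    push_cast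
    linarith
  obtain ⟨A, hCA, hmon, hα⟩ := exists_small_curve h hT hT2 hq hN X (E := X.Δ)
    (by rw [hU]; exact hr) (by
      rw [hU]
      have := X.ht_Ux h hr
      linarith) hvVJ le_rfl hbig'
  have hα0 : 0 ≤ gh κ A := gh_nonneg h hCA.irr.ne_zero
  have hαΔ := gh_le_B2 h hT hT2 hN' (by omega : 3 ≤ q + 3) hq X hCA hmon hr (E := X.Δ)
    (fun {J N} hJN => hvVJ hCA hJN) le_rfl hbig' hα
  have hT0 : (1 : ℤ) ≤ T := by exact_mod_cast hT
  have hTd : 2 * (T : ℤ) ≤ 27 * (d : ℤ) ^ 2 := by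
    have h1 : 2500 * (T * (q + 3)) ≤ d := hq
    have h2 : T ≤ T * (q + 3) := Nat.le_mul_of_pos_right _ (by omega)
    have h3 : (T : ℤ) ≤ d := by exact_mod_cast (by omega : T ≤ d)
    nlinarith
  refine stepC X hCA h hτ ha hz (fun i => ?_) ?_
  · rw [hΘe]
    have hei : ((e i : ℕ) : ℤ) ≤ M := by exact_mod_cast he i
    have h1 := numZ2 hd1' hT0 hTd (Int.natCast_nonneg (e i)) hei hΔ hΘ hR0 hαΔ hbig
    push_cast
    exact h1
  · have h1 := numG3 (e := 1) (s₀ := q + 3) (by omega) hT hT2 hN' (by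
      rw [mul_one]
      have h2 : 2000 * ((q + 3) * T) ≤ d := by
        rw [mul_comm (q + 3) T]
        omega
      calc 2000 * ((q + 3) * T) ≤ d := h2
        _ = d * 1 := (mul_one d).symm
        _ ≤ d * d := Nat.mul_le_mul_left _ hd1
        _ = d ^ 2 := (sq d).symm) hpos hΔ le_rfl hα0 hα
      (by rw [add_zero]; exact hbig')
    push_cast at h1 ⊢
    linarith

/-- **The height theorem**, without ramification. -/
theorem height_V2 {κ L : Type*} [Field κ] [IsAlgClosed κ] [CharZero κ] [Field L] [CharZero L]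
    [Algebra κ L] (h : IsFF κ L) {n r d T M : ℕ} (hT : 1 ≤ T) (hT2 : 2000 * T ^ 2 ≤ d)
    (hN : 2 * r + 8500 * T ^ 2 + T * (r + 2) ≤ T * d) (X : DatG κ (L := L) n d)
    (hv : X.v = 0) (hr : finrank L X.Ux ≤ r) (hR : X.R = 0)
    {τ : Place κ L → ℕ} (hτ : (Function.support τ).Finite)
    {ι : Type*} {e : ι → ℕ} {a : ι → (Fin (n + 1) →₀ ℕ) → L} (he : ∀ i, e i ≤ M)
    (ha : ∀ i, ∀ I ∈ expo (Fin (n + 1)) (e i), ∀ w : Place κ L, w.1 (a i I) ≤ exp (τ w : ℤ))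
    (hz : ∀ i, Fval (e i) (a i) X.x = 0) :
    height κ X.x ≤ (27 * d ^ 2 + 8 * T * M) * (X.Δ + ∑ᶠ w, (τ w : ℤ)) ∨
      CertV e a (2 * T) X.x := by
  have hd : 8500 * T ≤ d := by
    have h1 : T * (8500 * T) ≤ T * d := by
      calc T * (8500 * T) = 8500 * T ^ 2 := by ring
        _ ≤ T * d := by omega
    exact Nat.le_of_mul_le_mul_left h1 (by omega)
  rcases height_V2' h (q := 0) hT hT2 (by omega) (by rw [add_zero]; exact hN) X hv hr
    (by rw [hR]; simp) hτ he ha hz with h1 | h1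
  · left
    rw [hR, mul_zero, add_zero] at h1
    have hd1' : (0 : ℤ) < (d : ℤ) ^ 2 := by
      have : (1 : ℤ) ≤ d := by exact_mod_cast (by omega : 1 ≤ d)
      positivity
    exact le_of_mul_le_mul_left h1 hd1'
  · exact Or.inr h1

end Pool.Agent.Lib.MP_44a246_ntZ
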